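import Mathlib

/-!
Two general bounds for the Shannon entropy of a finite random variable.
-/

namespace Pool.Agent.Lib.MP_bd876b_pr

open Finset Real

lemma gibbs {ι : Type*} [Fintype ι] (p q : ι → ℝ) (hp : ∀ i, 0 ≤ p i) (hp1 : ∑ i, p i = 1)
    (hq : ∀ i, 0 ≤ q i) (hq1 : ∑ i, q i ≤ 1) (hpq : ∀ i, 0 < p i → 0 < q i) :
    ∑ i, negMulLog (p i) ≤ ∑ i, p i * (- log (q i)) := by
  have key : ∀ i, negMulLog (p i) ≤ p i * (- log (q i)) + (q i - p i) := by
    intro i
    rcases (hp i).eq_or_lt with h | h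
    · rw [← h]
      simp [hq i]
    · have hqi := hpq i h
      have h1 : log (q i / p i) ≤ q i / p i - 1 := log_le_sub_one_of_pos (by positivity)
      rw [log_div hqi.ne' h.ne'] at h1
      have h2 : p i * (log (q i) - log (p i)) ≤ p i * (q i / p i - 1) :=
        mul_le_mul_of_nonneg_left h1 h.le
      have h3 : p i * (q i / p i - 1) = q i - p i := by
        field_simp
      rw [negMulLog]
      rw [h3] at h2
      linarith
  calc ∑ i, negMulLog (p i) ≤ ∑ i, (p i * (- log (q i)) + (q i - p i)) :=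
        sum_le_sum fun i _ => key i
    _ = ∑ i, p i * (- log (q i)) + (∑ i, q i - ∑ i, p i) := by
        rw [sum_add_distrib, sum_sub_distrib]
    _ ≤ ∑ i, p i * (- log (q i)) := by linarith

/-- Upper bound: coding. The outcome `κ` is encoded by a description `D w` of weight `wt (D w)`
and, given the description, by one of at most `sz (D w)` possibilities. -/
lemma entropy_le {Q W Δ : Type*} [Fintype Q] [Fintype W] [Fintype Δ] [DecidableEq Δ]
    (p : Q → W → ℝ) (hp : ∀ κ w, 0 ≤ p κ w) (hp1 : ∑ κ, ∑ w, p κ w = 1)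
    (D : W → Δ) (wt sz : Δ → ℝ) (hwt : ∀ δ, 0 ≤ wt δ) (hwt1 : ∑ δ, wt δ ≤ 1)
    (hwtD : ∀ w, 0 < wt (D w)) (hsz : ∀ δ, 0 < sz δ)
    (hcard : ∀ δ, ((univ.filter (fun κ : Q => ∃ w, D w = δ ∧ 0 < p κ w)).card : ℝ) ≤ sz δ) :
    ∑ κ, negMulLog (∑ w, p κ w) ≤
      ∑ κ, ∑ w, p κ w * (- log (wt (D w)) + log (sz (D w))) := by
  classical
  set S : Δ → Finset Q := fun δ => univ.filter (fun κ : Q => ∃ w, D w = δ ∧ 0 < p κ w) with hS
  set q : Q → ℝ := fun κ => ∑ δ, if κ ∈ S δ then wt δ / sz δ else 0 with hqdef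
  have hq0 : ∀ κ, 0 ≤ q κ := by
    intro κ
    apply sum_nonneg
    intro δ _
    split_ifs
    · exact div_nonneg (hwt δ) (hsz δ).le
    · exact le_rfl
  have hq1 : ∑ κ, q κ ≤ 1 := by
    calc ∑ κ, q κ = ∑ δ, ∑ κ, (if κ ∈ S δ then wt δ / sz δ else 0) := sum_comm
      _ = ∑ δ, ((S δ).card : ℝ) * (wt δ / sz δ) := by
          refine sum_congr rfl fun δ _ => ?_
          have h5 : univ.filter (fun κ => κ ∈ S δ) = S δ := by
            ext κ
            simp
          rw [← sum_filter, sum_const, nsmul_eq_mul, h5]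
      _ ≤ ∑ δ, wt δ := by
          refine sum_le_sum fun δ _ => ?_
          calc ((S δ).card : ℝ) * (wt δ / sz δ) ≤ sz δ * (wt δ / sz δ) :=
                mul_le_mul_of_nonneg_right (hcard δ) (div_nonneg (hwt δ) (hsz δ).le)
            _ = wt δ := by
                have := (hsz δ).ne'
                field_simp
      _ ≤ 1 := hwt1
  have hqge : ∀ κ w, 0 < p κ w → wt (D w) / sz (D w) ≤ q κ := by
    intro κ w h
    have hmem : κ ∈ S (D w) := by
      simp only [hS, mem_filter, mem_univ, true_and]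
      exact ⟨w, rfl, h⟩
    calc wt (D w) / sz (D w) = (if κ ∈ S (D w) then wt (D w) / sz (D w) else 0) := by
          rw [if_pos hmem]
      _ ≤ q κ := by
          apply single_le_sum (f := fun δ => if κ ∈ S δ then wt δ / sz δ else 0) _ (mem_univ (D w))
          intro δ _
          split_ifs
          · exact div_nonneg (hwt δ) (hsz δ).le
          · exact le_rfl
  have hpq : ∀ κ, 0 < (∑ w, p κ w) → 0 < q κ := by
    intro κ h
    obtain ⟨w, -, hw⟩ := exists_lt_of_sum_lt (s := univ) (f := fun _ : W => (0 : ℝ))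
      (g := fun w => p κ w) (by simpa using h)
    exact lt_of_lt_of_le (div_pos (hwtD w) (hsz _)) (hqge κ w hw)
  refine (gibbs (fun κ => ∑ w, p κ w) q (fun κ => sum_nonneg fun w _ => hp κ w) hp1 hq0 hq1
    hpq).trans ?_
  refine sum_le_sum fun κ _ => ?_
  rw [sum_mul]
  refine sum_le_sum fun w _ => ?_
  rcases (hp κ w).eq_or_lt with h | h
  · rw [← h]; simp
  · apply mul_le_mul_of_nonneg_left _ h.le
    have h1 := log_le_log (div_pos (hwtD w) (hsz (D w))) (hqge κ w h)
    rw [log_div (hwtD w).ne' (hsz _).ne'] at h1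
    linarith

/-- Lower bound: conditioning on `Z w`, every outcome has conditional probability at most
`ρ ^ F (Z w)`. -/
lemma le_entropy {Q W Γ : Type*} [Fintype Q] [Fintype W] [Fintype Γ] [DecidableEq Γ]
    (p : Q → W → ℝ) (hp : ∀ κ w, 0 ≤ p κ w) (hp1 : ∑ κ, ∑ w, p κ w = 1)
    (Z : W → Γ) (F : Γ → ℕ) (ρ : ℝ) (hρ0 : 0 < ρ) (hρ1 : ρ ≤ 1)
    (hcond : ∀ κ γ, (∑ w, if Z w = γ then p κ w else 0) ≤
      ρ ^ F γ * ∑ κ', ∑ w, if Z w = γ then p κ' w else 0) :
    log ρ⁻¹ * ∑ κ, ∑ w, p κ w * (F (Z w) : ℝ) ≤ ∑ κ, negMulLog (∑ w, p κ w) := by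
  classical
  set pg : Q → Γ → ℝ := fun κ γ => ∑ w, if Z w = γ then p κ w else 0 with hpg
  set P : Γ → ℝ := fun γ => ∑ κ', pg κ' γ with hP
  have hpg0 : ∀ κ γ, 0 ≤ pg κ γ := fun κ γ => sum_nonneg fun w _ => by
    split_ifs
    · exact hp κ w
    · exact le_rfl
  have hP0 : ∀ γ, 0 ≤ P γ := fun γ => sum_nonneg fun κ _ => hpg0 κ γ
  have hpgs : ∀ κ, ∑ γ, pg κ γ = ∑ w, p κ w := by
    intro κ
    rw [hpg]
    simp only
    rw [sum_comm]
    refine sum_congr rfl fun w _ => ?_
    simp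
  have hP1 : ∑ γ, P γ = 1 := by
    rw [hP]
    simp only
    rw [sum_comm, ← hp1]
    exact sum_congr rfl fun κ _ => hpgs κ
  have hPzero : ∀ γ, P γ = 0 → ∀ κ, pg κ γ = 0 := by
    intro γ h κ
    exact (sum_eq_zero_iff_of_nonneg (fun κ _ => hpg0 κ γ)).mp h κ (mem_univ _)
  -- concavity
  have hconc : ∀ κ, ∑ γ, P γ * negMulLog (pg κ γ / P γ) ≤ negMulLog (∑ w, p κ w) := by
    intro κ
    have h1 := concaveOn_negMulLog.le_map_sum (t := univ) (w := P) (p := fun γ => pg κ γ / P γ)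
      (fun γ _ => hP0 γ) hP1 (fun γ _ => div_nonneg (hpg0 κ γ) (hP0 γ))
    simp only [smul_eq_mul] at h1
    refine h1.trans (le_of_eq ?_)
    congr 1
    rw [← hpgs κ]
    refine sum_congr rfl fun γ _ => ?_
    rcases (hP0 γ).eq_or_lt with h | h
    · rw [← h, hPzero γ h.symm κ]; simp
    · field_simp
  have hlogρ : 0 ≤ log ρ⁻¹ := log_nonneg ((one_le_inv₀ hρ0).mpr hρ1)
  have hterm : ∀ κ γ, pg κ γ * (F γ * log ρ⁻¹) ≤ P γ * negMulLog (pg κ γ / P γ) := by
    intro κ γ
    rcases (hpg0 κ γ).eq_or_lt with h | h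
    · rw [← h]; simp
    · have hPpos : 0 < P γ := by
        rcases (hP0 γ).eq_or_lt with h' | h'
        · exact absurd (hPzero γ h'.symm κ) h.ne'
        · exact h'
      have hx : 0 < pg κ γ / P γ := div_pos h hPpos
      have hxle : pg κ γ / P γ ≤ ρ ^ F γ := by
        rw [div_le_iff₀ hPpos]
        exact hcond κ γ
      have hlog : log (pg κ γ / P γ) ≤ F γ * log ρ := by
        rw [← log_pow]
        exact log_le_log hx hxle
      rw [negMulLog, log_inv]
      have h3 : P γ * (-(pg κ γ / P γ) * log (pg κ γ / P γ)) =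
          pg κ γ * (- log (pg κ γ / P γ)) := by
        field_simp
      rw [h3]
      apply mul_le_mul_of_nonneg_left _ h.le
      linarith
  calc log ρ⁻¹ * ∑ κ, ∑ w, p κ w * (F (Z w) : ℝ)
      = ∑ κ, ∑ γ, pg κ γ * (F γ * log ρ⁻¹) := by
        rw [mul_sum]
        refine sum_congr rfl fun κ _ => ?_
        have h4 : ∀ γ, pg κ γ * (F γ * log ρ⁻¹) =
            ∑ w, if Z w = γ then p κ w * ((F (Z w) : ℝ) * log ρ⁻¹) else 0 := by
          intro γ
          rw [hpg]
          simp only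
          rw [sum_mul]
          refine sum_congr rfl fun w _ => ?_
          split_ifs with h
          · rw [h]
          · simp
        simp_rw [h4]
        rw [sum_comm, mul_sum]
        refine sum_congr rfl fun w _ => ?_
        rw [sum_ite_eq]
        simp only [mem_univ, if_true]
        ring
    _ ≤ ∑ κ, ∑ γ, P γ * negMulLog (pg κ γ / P γ) :=
        sum_le_sum fun κ _ => sum_le_sum fun γ _ => hterm κ γ
    _ ≤ ∑ κ, negMulLog (∑ w, p κ w) := sum_le_sum fun κ _ => hconc κ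

end Pool.Agent.Lib.MP_bd876b_pr
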