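import Pool.Agent.Lib.MP_bd876b_pr.UpperCount
import Pool.Agent.Lib.MP_bd876b_pr.Entropy

/-!
The two entropy bounds for a joint law of a pattern and uniformly distributed columns.
-/

namespace Pool.Agent.Lib.MP_bd876b_pr

open Finset

variable {n N d : ℕ}

/-- `p κ w` is the probability that the pattern is `κ` and that the cells and columns of the
points are given by `w`; the columns are uniformly distributed. -/
structure Joint (τ : Fin N → ℕ) (σ : Fin d → ℕ)
    (p : Equiv.Perm (Fin n) → (Fin n → Fin N × Fin d) → ℝ) : Prop where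
  nonneg : ∀ κ w, 0 ≤ p κ w
  marg : ∀ w, ∑ κ, p κ w = ((N * d : ℝ) ^ n)⁻¹
  real : ∀ κ w, 0 < p κ w → ∃ x y, Realizes τ σ κ w x y

lemma card_w : (Fintype.card (Fin n → Fin N × Fin d) : ℝ) = (N * d : ℝ) ^ n := by
  rw [Fintype.card_fun, Fintype.card_prod, Fintype.card_fin, Fintype.card_fin, Fintype.card_fin]
  push_cast
  ring

namespace Joint

variable {τ : Fin N → ℕ} {σ : Fin d → ℕ} {p : Equiv.Perm (Fin n) → (Fin n → Fin N × Fin d) → ℝ}

lemma sum_mul_eq (h : Joint τ σ p) (f : (Fin n → Fin N × Fin d) → ℝ) :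
    ∑ κ, ∑ w, p κ w * f w = ((N * d : ℝ) ^ n)⁻¹ * ∑ w, f w := by
  rw [sum_comm, mul_sum]
  refine sum_congr rfl fun w _ => ?_
  rw [← sum_mul, h.marg]

lemma sum_one (h : Joint τ σ p) (hNd : (0 : ℝ) < N * d) : ∑ κ, ∑ w, p κ w = 1 := by
  have := h.sum_mul_eq (fun _ => 1)
  simp only [mul_one, sum_const, nsmul_eq_mul, card_univ, card_w] at this
  rw [this]
  have : ((N * d : ℝ) ^ n) ≠ 0 := by positivity
  field_simp

end Joint

/-- Weight of the description of one cell. -/
noncomputable def om (M C J : ℕ) : ℝ :=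
  if J ≤ C then (1 / (M + 1)) * (M / (M + 1)) ^ C * (1 / (C + 1)) * (1 / 2) else 0

lemma om_nonneg (M C J : ℕ) : 0 ≤ om M C J := by
  unfold om
  split_ifs <;> positivity

lemma sum_om_le (M n : ℕ) :
    ∑ t : Fin (n + 1) × Fin (n + 1) × Bool, om M t.1 t.2.1 ≤ 1 := by
  rw [Fintype.sum_prod_type]
  have h1 : ∀ C : Fin (n + 1), ∑ t : Fin (n + 1) × Bool, om M C t.1 =
      (1 / (M + 1)) * (M / (M + 1)) ^ (C : ℕ) := by
    intro C
    rw [Fintype.sum_prod_type]
    simp only [Fintype.sum_bool]
    have h2 : ∀ J : Fin (n + 1), om M C J + om M C J =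
        if (J : ℕ) ≤ (C : ℕ) then (1 / (M + 1) : ℝ) * (M / (M + 1)) ^ (C : ℕ) * (1 / (C + 1))
        else 0 := by
      intro J
      unfold om
      split_ifs <;> ring
    rw [sum_congr rfl fun J _ => h2 J, ← sum_filter, sum_const, nsmul_eq_mul]
    have h3 : (univ.filter fun J : Fin (n + 1) => (J : ℕ) ≤ (C : ℕ)) = Iic C := by
      ext J
      simp only [mem_filter, mem_univ, true_and, mem_Iic]
      rfl
    rw [h3, Fin.card_Iic]
    push_cast
    field_simp
  calc ∑ C : Fin (n + 1), ∑ t : Fin (n + 1) × Bool, om M C t.1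
      = ∑ C : Fin (n + 1), (1 / (M + 1) : ℝ) * (M / (M + 1)) ^ (C : ℕ) :=
        sum_congr rfl fun C _ => h1 C
    _ = (1 / (M + 1) : ℝ) * ∑ k ∈ range (n + 1), (M / (M + 1) : ℝ) ^ k := by
        rw [Fin.sum_univ_eq_sum_range (fun k => (1 / (M + 1) : ℝ) * (M / (M + 1)) ^ k) (n + 1),
          mul_sum]
    _ ≤ 1 := by
        have hr : (M / (M + 1) : ℝ) ≠ 1 := by
          intro h
          rw [div_eq_one_iff_eq (by positivity)] at h
          linarith
        rw [geom_sum_eq hr]
        have h4 : (M / (M + 1) : ℝ) - 1 = - (1 / (M + 1)) := by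
          field_simp
          ring
        rw [h4]
        have h5 : (1 / (M + 1) : ℝ) * (((M / (M + 1) : ℝ) ^ (n + 1) - 1) / -(1 / (M + 1))) =
            1 - (M / (M + 1) : ℝ) ^ (n + 1) := by
          field_simp
          ring
        rw [h5]
        have : (0 : ℝ) ≤ (M / (M + 1) : ℝ) ^ (n + 1) := by positivity
        linarith

lemma neg_log_om {M C J : ℕ} (hM : 1 ≤ M) (h : J ≤ C) :
    - Real.log (om M C J) = Real.log (M + 1) + C * Real.log ((M + 1) / M) + Real.log (C + 1) +
      Real.log 2 := by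
  have hM' : (0 : ℝ) < M := by exact_mod_cast hM
  unfold om
  rw [if_pos h, Real.log_mul (by positivity) (by positivity),
    Real.log_mul (by positivity) (by positivity), Real.log_mul (by positivity) (by positivity),
    Real.log_pow, Real.log_div (by positivity) (by positivity),
    Real.log_div (by positivity) (by positivity), Real.log_div (by positivity) (by positivity),
    Real.log_div (by positivity) (by positivity), Real.log_div (by positivity) (by positivity),
    Real.log_one]
  ring

lemma om_pos {M C J : ℕ} (hM : 1 ≤ M) (h : J ≤ C) : 0 < om M C J := by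
  have hM' : (0 : ℝ) < M := by exact_mod_cast hM
  unfold om
  rw [if_pos h]
  positivity

lemma self_pow_pos (C : ℕ) : (0 : ℝ) < (C : ℝ) ^ C := by
  rcases Nat.eq_zero_or_pos C with rfl | h
  · simp
  · have : (0 : ℝ) < C := by exact_mod_cast h
    positivity

open Classical in
/-- The upper bound. -/
theorem Joint.upper {τ : Fin N → ℕ} (hτ : Function.Injective τ) {σ : Fin d → ℕ} {m : ℕ}
    (hσ : IsTent m σ) {p : Equiv.Perm (Fin n) → (Fin n → Fin N × Fin d) → ℝ}
    (h : Joint τ σ p) {M : ℕ} (hM : 1 ≤ M) (hN : 1 ≤ N) (hd : 1 ≤ d) (hn : n = M * N)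
    (hn2 : 2 ≤ n) :
    ∑ κ, Real.negMulLog (∑ w, p κ w) ≤ N * (2 * Real.log (M + 1) + 1 + Real.log 2) +
      16 * n ^ 2 * Real.exp (3 * n / N) / (N * d) := by
  have hN' : (0 : ℝ) < N := by exact_mod_cast hN
  have hM' : (0 : ℝ) < M := by exact_mod_cast hM
  have hd' : (0 : ℝ) < d := by exact_mod_cast hd
  have hNd : (0 : ℝ) < N * d := by positivity
  set D : (Fin n → Fin N × Fin d) → (Fin N → Fin (n + 1) × Fin (n + 1) × Bool) := fun w c =>
    (⟨cnt w c, Nat.lt_succ_of_le (cnt_le w c)⟩,
      ⟨lft m w c, Nat.lt_succ_of_le ((lft_le m w c).trans (cnt_le w c))⟩, decide (bad w c))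
    with hD
  set wt : (Fin N → Fin (n + 1) × Fin (n + 1) × Bool) → ℝ := fun δ =>
    ∏ c, om M (δ c).1 (δ c).2.1 with hwt
  set sz : (Fin N → Fin (n + 1) × Fin (n + 1) × Bool) → ℝ := fun δ =>
    ∏ c, if (δ c).2.2 = true then ((δ c).1 : ℝ) ^ ((δ c).1 : ℕ) else 1 with hsz
  have hwtD : ∀ w, 0 < wt (D w) := by
    intro w
    exact prod_pos fun c _ => om_pos hM (lft_le m w c)
  have hszpos : ∀ δ, 0 < sz δ := by
    intro δ
    refine prod_pos fun c _ => ?_
    split_ifs
    · exact self_pow_pos _
    · exact one_pos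
  have key := entropy_le p h.nonneg (h.sum_one hNd) D wt sz
    (fun δ => prod_nonneg fun c _ => om_nonneg _ _ _) (by
      have h1 : ∑ δ : (Fin N → Fin (n + 1) × Fin (n + 1) × Bool), wt δ =
          ∏ _c : Fin N, ∑ t : Fin (n + 1) × Fin (n + 1) × Bool, om M t.1 t.2.1 := by
        rw [prod_univ_sum, Fintype.piFinset_univ]
      rw [h1]
      exact prod_le_one (fun _ _ => sum_nonneg fun t _ => om_nonneg _ _ _)
        fun _ _ => sum_om_le M n)
    hwtD hszpos (by
      intro δ
      rcases (univ.filter (fun κ : Equiv.Perm (Fin n) =>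
        ∃ w, D w = δ ∧ 0 < p κ w)).eq_empty_or_nonempty with he | ⟨κ₀, hκ₀⟩
      · rw [he, card_empty, Nat.cast_zero]
        exact (hszpos δ).le
      · simp only [mem_filter, mem_univ, true_and] at hκ₀
        obtain ⟨w₀, hw₀, -⟩ := hκ₀
        have h1 := card_pattern_le hτ hσ w₀ (univ.filter (fun κ : Equiv.Perm (Fin n) =>
          ∃ w, D w = δ ∧ 0 < p κ w)) (by
            intro κ hκ
            simp only [mem_filter, mem_univ, true_and] at hκ
            obtain ⟨w, hw, hpw⟩ := hκ
            obtain ⟨x, y, hxy⟩ := h.real κ w hpw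
            have h2 : ∀ c, D w c = D w₀ c := fun c => by rw [hw, hw₀]
            refine ⟨w, x, y, fun c => ?_, fun c => ?_, fun c => ?_, hxy⟩
            · have := congrArg Prod.fst (h2 c)
              simpa only [hD, Fin.mk.injEq] using this
            · have := congrArg (fun t => t.2.1) (h2 c)
              simpa only [hD, Fin.mk.injEq] using this
            · have := congrArg (fun t => t.2.2) (h2 c)
              simpa only [hD, decide_eq_decide] using this)
        have h3 : sz δ = ((∏ c, if bad w₀ c then (cnt w₀ c) ^ (cnt w₀ c) else 1 : ℕ) : ℝ) := by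
          rw [← hw₀]
          simp only [hsz, hD, decide_eq_true_eq]
          push_cast
          rfl
        rw [h3]
        exact_mod_cast h1)
  refine key.trans ?_
  rw [h.sum_mul_eq]
  have hcost : ∀ w : Fin n → Fin N × Fin d, - Real.log (wt (D w)) + Real.log (sz (D w)) ≤
      N * (2 * Real.log (M + 1) + 1 + Real.log 2) +
      ∑ c, (if bad w c then (cnt w c : ℝ) * Real.log (cnt w c) else 0) := by
    intro w
    have e1 : - Real.log (wt (D w)) = ∑ c, (Real.log (M + 1) +
        cnt w c * Real.log ((M + 1) / M) + Real.log (cnt w c + 1) + Real.log 2) := by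
      rw [hwt]
      simp only
      rw [Real.log_prod (fun c _ => (om_pos hM (lft_le m w c)).ne'), ← sum_neg_distrib]
      exact sum_congr rfl fun c _ => neg_log_om hM (lft_le m w c)
    have e2 : Real.log (sz (D w)) =
        ∑ c, (if bad w c then (cnt w c : ℝ) * Real.log (cnt w c) else 0) := by
      rw [hsz]
      simp only
      rw [Real.log_prod]
      · refine sum_congr rfl fun c _ => ?_
        simp only [hD, decide_eq_true_eq]
        split_ifs
        · rw [Real.log_pow]
        · exact Real.log_one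
      · intro c _
        split_ifs
        · exact (self_pow_pos _).ne'
        · exact one_ne_zero
    have hsum : ∑ c, (cnt w c : ℝ) = M * N := by
      rw [← Nat.cast_sum, sum_cnt, hn]
      push_cast
      ring
    have e3 : ∑ c, Real.log ((cnt w c : ℝ) + 1) ≤ N * Real.log (M + 1) := by
      have h4 : ∀ c, Real.log ((cnt w c : ℝ) + 1) ≤
          Real.log (M + 1) + ((cnt w c : ℝ) - M) / (M + 1) := by
        intro c
        have h5 : (0 : ℝ) < (cnt w c : ℝ) + 1 := by positivity
        have h6 := Real.log_le_sub_one_of_pos (x := ((cnt w c : ℝ) + 1) / (M + 1))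
          (by positivity)
        rw [Real.log_div h5.ne' (by positivity)] at h6
        have h7 : ((cnt w c : ℝ) + 1) / (M + 1) - 1 = ((cnt w c : ℝ) - M) / (M + 1) := by
          field_simp
          ring
        linarith
      calc ∑ c, Real.log ((cnt w c : ℝ) + 1)
          ≤ ∑ c, (Real.log (M + 1) + ((cnt w c : ℝ) - M) / (M + 1)) :=
            sum_le_sum fun c _ => h4 c
        _ = N * Real.log (M + 1) := by
            rw [sum_add_distrib, ← sum_div, sum_sub_distrib, hsum, sum_const, sum_const,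
              card_univ, Fintype.card_fin, nsmul_eq_mul, nsmul_eq_mul]
            ring
    have e4 : Real.log ((M + 1) / M) ≤ 1 / M := by
      have h6 := Real.log_le_sub_one_of_pos (x := ((M : ℝ) + 1) / M) (by positivity)
      have h7 : ((M : ℝ) + 1) / M - 1 = 1 / M := by
        field_simp
        ring
      linarith
    rw [e1, e2]
    have e5 : ∑ c, (Real.log (M + 1) + cnt w c * Real.log ((M + 1) / M) +
        Real.log (cnt w c + 1) + Real.log 2) = N * Real.log (M + 1) +
        (M * N) * Real.log ((M + 1) / M) + ∑ c, Real.log ((cnt w c : ℝ) + 1) +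
        N * Real.log 2 := by
      rw [sum_add_distrib, sum_add_distrib, sum_add_distrib, ← sum_mul, hsum, sum_const,
        sum_const, card_univ, Fintype.card_fin, nsmul_eq_mul, nsmul_eq_mul]
    rw [e5]
    have e6 : (M * N : ℝ) * Real.log ((M + 1) / M) ≤ N := by
      calc (M * N : ℝ) * Real.log ((M + 1) / M) ≤ (M * N) * (1 / M) :=
            mul_le_mul_of_nonneg_left e4 (by positivity)
        _ = N := by field_simp
    nlinarith [e3, e6]
  calc ((N * d : ℝ) ^ n)⁻¹ * ∑ w, (- Real.log (wt (D w)) + Real.log (sz (D w)))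
      ≤ ((N * d : ℝ) ^ n)⁻¹ * ∑ w : Fin n → Fin N × Fin d,
        (N * (2 * Real.log (M + 1) + 1 + Real.log 2) +
        ∑ c, (if bad w c then (cnt w c : ℝ) * Real.log (cnt w c) else 0)) :=
        mul_le_mul_of_nonneg_left (sum_le_sum fun w _ => hcost w) (by positivity)
    _ = N * (2 * Real.log (M + 1) + 1 + Real.log 2) + ((N * d : ℝ) ^ n)⁻¹ *
        ∑ w : Fin n → Fin N × Fin d,
          ∑ c, (if bad w c then (cnt w c : ℝ) * Real.log (cnt w c) else 0) := by
        rw [sum_add_distrib, sum_const, card_univ, nsmul_eq_mul, card_w, mul_add, ← mul_assoc,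
          inv_mul_cancel₀ (by positivity), one_mul]
    _ ≤ N * (2 * Real.log (M + 1) + 1 + Real.log 2) + ((N * d : ℝ) ^ n)⁻¹ *
        ((N * d : ℝ) ^ n * (16 * n ^ 2 * Real.exp (3 * n / N) / (N * d))) := by
        have := sum_sum_bad_le (n := n) (N := N) (d := d) hn2 hN hd
        have h8 : (0 : ℝ) ≤ ((N * d : ℝ) ^ n)⁻¹ := by positivity
        linarith [mul_le_mul_of_nonneg_left this h8]
    _ = _ := by
        rw [← mul_assoc, inv_mul_cancel₀ (by positivity), one_mul]

open Classical in
/-- The lower bound. -/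
theorem Joint.lower {τ : Fin N → ℕ} {σ : Fin d → ℕ} {m : ℕ} (hm : 1 ≤ m) (hdm : d = 2 * m)
    (hσ : IsTent m σ) {p : Equiv.Perm (Fin n) → (Fin n → Fin N × Fin d) → ℝ}
    (h : Joint τ σ p) (hN : 2 ≤ N) (hn : n = N) :
    Real.log ((m + 1 : ℝ) / d)⁻¹ * (N / (4 * Real.exp 1)) ≤
      ∑ κ, Real.negMulLog (∑ w, p κ w) := by
  have hd : 1 ≤ d := by omega
  have : NeZero d := ⟨by omega⟩
  have hN' : (0 : ℝ) < N := by positivity
  have hd' : (0 : ℝ) < d := by exact_mod_cast hd
  have hNd : (0 : ℝ) < N * d := by positivity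
  set q : ℝ := ((N * d : ℝ) ^ n)⁻¹ with hq
  have hq0 : 0 < q := by positivity
  have hle : ∀ κ w, p κ w ≤ q := by
    intro κ w
    rw [hq, ← h.marg w]
    exact single_le_sum (f := fun κ => p κ w) (fun κ _ => h.nonneg κ w) (mem_univ κ)
  have hρ0 : (0 : ℝ) < (m + 1 : ℝ) / d := by positivity
  have hρ1 : (m + 1 : ℝ) / d ≤ 1 := by
    rw [div_le_one hd']
    have : m + 1 ≤ d := by omega
    exact_mod_cast this
  have key := le_entropy p h.nonneg (h.sum_one hNd) (zero m) (numFree m) ((m + 1 : ℝ) / d)
    hρ0 hρ1 (by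
      intro κ γ
      have h1 : (∑ w, if zero m w = γ then p κ w else 0) ≤ (m + 1 : ℝ) ^ numFree m γ * q := by
        calc (∑ w, if zero m w = γ then p κ w else 0)
            ≤ ∑ w, if (zero m w = γ ∧ ∃ x y, Realizes τ σ κ w x y) then q else 0 := by
              refine sum_le_sum fun w _ => ?_
              by_cases hz : zero m w = γ
              · rw [if_pos hz]
                by_cases hr : ∃ x y, Realizes τ σ κ w x y
                · rw [if_pos ⟨hz, hr⟩]
                  exact hle κ w
                · rw [if_neg (fun hc => hr hc.2)]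
                  by_contra hc
                  push Not at hc
                  exact hr (h.real κ w hc)
              · rw [if_neg hz, if_neg (fun hc => hz hc.1)]
          _ = ((univ.filter fun w : Fin n → Fin N × Fin d =>
                zero m w = γ ∧ ∃ x y, Realizes τ σ κ w x y).card : ℝ) * q := by
              rw [← sum_filter, sum_const, nsmul_eq_mul]
          _ ≤ (m + 1 : ℝ) ^ numFree m γ * q := by
              apply mul_le_mul_of_nonneg_right _ hq0.le
              exact_mod_cast card_fiber_realizes_le hdm hσ κ γ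
      have h2 : (∑ κ', ∑ w, if zero m w = γ then p κ' w else 0) =
          ((univ.filter fun w : Fin n → Fin N × Fin d => zero m w = γ).card : ℝ) * q := by
        rw [sum_comm]
        have h3 : ∀ w, (∑ κ', if zero m w = γ then p κ' w else 0) =
            if zero m w = γ then q else 0 := by
          intro w
          split_ifs
          · exact h.marg w
          · simp
        rw [sum_congr rfl fun w _ => h3 w, ← sum_filter, sum_const, nsmul_eq_mul]
      by_cases hex : ∃ w₀ : Fin n → Fin N × Fin d, zero m w₀ = γ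
      · obtain ⟨w₀, rfl⟩ := hex
        have h4 := le_card_fiber (m := m) w₀
        have h5 : (d : ℝ) ^ numFree m (zero m w₀) ≤
            ((univ.filter fun w : Fin n → Fin N × Fin d => zero m w = zero m w₀).card : ℝ) := by
          exact_mod_cast h4
        refine h1.trans ?_
        rw [h2, div_pow]
        have h6 : (m + 1 : ℝ) ^ numFree m (zero m w₀) * q =
            (m + 1 : ℝ) ^ numFree m (zero m w₀) / (d : ℝ) ^ numFree m (zero m w₀) *
              ((d : ℝ) ^ numFree m (zero m w₀) * q) := by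
          field_simp
        rw [h6]
        apply mul_le_mul_of_nonneg_left _ (by positivity)
        exact mul_le_mul_of_nonneg_right h5 hq0.le
      · push Not at hex
        have h7 : (∑ w, if zero m w = γ then p κ w else 0) = 0 :=
          sum_eq_zero fun w _ => if_neg (hex w)
        rw [h7, h2]
        exact mul_nonneg (pow_nonneg hρ0.le _) (mul_nonneg (Nat.cast_nonneg _) hq0.le))
  refine le_trans ?_ key
  apply mul_le_mul_of_nonneg_left _ (Real.log_nonneg ((one_le_inv₀ hρ0).mpr hρ1))
  rw [h.sum_mul_eq, sum_congr rfl fun w _ => congrArg Nat.cast (numFree_zero (m := m) w)]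
  have h8 : ((n * (n - 1) / 2 * (N * m * (d * ((N - 1) * d) ^ (n - 2))) : ℕ) : ℝ) ≤
      ∑ w : Fin n → Fin N × Fin d, (numFree m w : ℝ) := by
    exact_mod_cast le_sum_numFree hdm
  refine le_trans ?_ (mul_le_mul_of_nonneg_left h8 (by positivity))
  subst hn
  obtain ⟨k, rfl⟩ := Nat.exists_eq_add_of_le hN
  -- now `n = 2 + k`
  have h9 : (((2 + k) * (2 + k - 1) / 2 : ℕ) : ℝ) = (2 + k) * (1 + k) / 2 := by
    have h10 : 2 ∣ (2 + k) * (2 + k - 1) := by
      have : (2 + k - 1) = 1 + k := by omega
      rw [this]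
      have := Nat.even_mul_succ_self (1 + k)
      rw [show 1 + k + 1 = 2 + k by omega] at this
      rw [mul_comm]
      exact this.two_dvd
    rw [Nat.cast_div h10 (by norm_num), show (2 + k - 1) = 1 + k by omega]
    push_cast
    ring
  rw [show 2 + k - 2 = k by omega, show 2 + k - 1 = 1 + k by omega] at *
  rw [Nat.cast_mul, h9]
  push_cast
  have h11 : (d : ℝ) = 2 * m := by
    rw [hdm]
    push_cast
    ring
  have hm' : (0 : ℝ) < m := by exact_mod_cast hm
  have h12 : ((((2 : ℝ) + k) * d) ^ (2 + k))⁻¹ * ((2 + k) * (1 + k) / 2 *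
      ((2 + k) * m * (d * ((1 + k) * d) ^ k))) =
      (1 + k) / 4 * ((1 + k) / (2 + k)) ^ k := by
    have e1 : ((((2 : ℝ) + k) * d) ^ (2 + k)) = (2 + k) ^ 2 * d ^ 2 * ((2 + k) ^ k * d ^ k) := by
      rw [mul_pow, pow_add, pow_add]
      ring
    rw [e1, mul_pow, div_pow]
    have e2 : (0 : ℝ) < (d : ℝ) ^ k := by positivity
    have e3 : (0 : ℝ) < (2 + (k : ℝ)) ^ k := by positivity
    generalize (d : ℝ) ^ k = A at *
    generalize (2 + (k : ℝ)) ^ k = B at *
    generalize (1 + (k : ℝ)) ^ k = C at *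
    rw [h11]
    field_simp
    ring
  rw [h12]
  -- `((1 + k) / (2 + k)) ^ (k + 1) ≥ e⁻¹`
  have h13 : Real.exp (-1) ≤ ((1 + k) / (2 + k) : ℝ) ^ (k + 1) := by
    have h14 : (2 + k : ℝ) / (1 + k) ≤ Real.exp (1 / (1 + k)) := by
      have := Real.add_one_le_exp (1 / (1 + k) : ℝ)
      have h15 : (2 + k : ℝ) / (1 + k) = 1 / (1 + k) + 1 := by
        field_simp
        ring
      rw [h15]
      exact this
    have h16 : ((2 + k : ℝ) / (1 + k)) ^ (k + 1) ≤ Real.exp 1 := by
      calc ((2 + k : ℝ) / (1 + k)) ^ (k + 1) ≤ Real.exp (1 / (1 + k)) ^ (k + 1) := by gcongr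
        _ = Real.exp ((k + 1 : ℕ) * (1 / (1 + k))) := (Real.exp_nat_mul _ _).symm
        _ = Real.exp 1 := by
            congr 1
            push_cast
            field_simp
            ring
    rw [Real.exp_neg, show ((1 + k) / (2 + k) : ℝ) = ((2 + k : ℝ) / (1 + k))⁻¹ by
      rw [inv_div], inv_pow]
    exact inv_anti₀ (by positivity) h16
  have h17 : (1 + k : ℝ) / 4 * ((1 + k) / (2 + k)) ^ k =
      (2 + k) / 4 * ((1 + k) / (2 + k)) ^ (k + 1) := by
    rw [pow_succ]
    field_simp
  rw [h17]
  calc (2 + k : ℝ) / (4 * Real.exp 1) = (2 + k) / 4 * Real.exp (-1) := by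
        rw [Real.exp_neg]
        field_simp
    _ ≤ _ := mul_le_mul_of_nonneg_left h13 (by positivity)

end Pool.Agent.Lib.MP_bd876b_pr
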