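import Pool.Agent.Lib.MP_bd876b_pr.Pattern

/-!
Patterns of points that are spread over cells.
-/

namespace Pool.Agent.Lib.MP_bd876b_pr

open Finset

variable {n N d : ℕ}

/-- The permutation `κ` is the pattern of points `(x i, y i)`, where the `i`-th point lies in the
cell `(w i).1` and there in the column `(w i).2`. The cells are ordered from left to right, and
from bottom to top by `τ`; the columns of a cell are ordered from left to right, and from bottom to
top by `σ`. -/
structure Realizes (τ : Fin N → ℕ) (σ : Fin d → ℕ) (κ : Equiv.Perm (Fin n))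
    (w : Fin n → Fin N × Fin d) (x y : Fin n → ℝ) : Prop where
  injx : Function.Injective x
  injy : Function.Injective y
  hx1 : ∀ i j, (w i).1 < (w j).1 → x i < x j
  hx2 : ∀ i j, (w i).1 = (w j).1 → (w i).2 < (w j).2 → x i < x j
  hy1 : ∀ i j, τ (w i).1 < τ (w j).1 → y i < y j
  hy2 : ∀ i j, (w i).1 = (w j).1 → σ (w i).2 < σ (w j).2 → y i < y j
  hκ : ∀ i, κ ⟨rk x i, rk_lt x i⟩ = ⟨rk y i, rk_lt y i⟩

/-- The number of points in a cell. -/
def cnt (w : Fin n → Fin N × Fin d) (c : Fin N) : ℕ := (univ.filter fun l => (w l).1 = c).card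

/-- The rank of a point within its cell. -/
noncomputable def inn (w : Fin n → Fin N × Fin d) (x : Fin n → ℝ) (i : Fin n) : ℕ :=
  (univ.filter fun l => (w l).1 = (w i).1 ∧ x l < x i).card

lemma inn_lt (w : Fin n → Fin N × Fin d) (x : Fin n → ℝ) (i : Fin n) :
    inn w x i < cnt w (w i).1 := by
  apply card_lt_card
  refine ⟨fun l hl => ?_, fun hsub => ?_⟩
  · simp only [mem_filter, mem_univ, true_and] at hl ⊢
    exact hl.1
  · have : i ∈ univ.filter fun l => (w l).1 = (w i).1 ∧ x l < x i := hsub (by simp)
    simp at this

lemma rk_eq_add (w : Fin n → Fin N × Fin d) (x : Fin n → ℝ) (θ : Fin N → ℕ)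
    (hθ : Function.Injective θ) (hx : ∀ i j, θ (w i).1 < θ (w j).1 → x i < x j) (i : Fin n) :
    rk x i = (univ.filter fun l => θ (w l).1 < θ (w i).1).card + inn w x i := by
  unfold rk inn
  rw [← card_union_of_disjoint]
  · congr 1
    ext l
    simp only [mem_filter, mem_univ, true_and, mem_union]
    constructor
    · intro h
      rcases lt_trichotomy (θ (w l).1) (θ (w i).1) with h1 | h1 | h1
      · exact Or.inl h1
      · exact Or.inr ⟨hθ h1, h⟩
      · exact absurd (hx i l h1) (not_lt.mpr h.le)
    · rintro (h | h)
      · exact hx l i h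
      · exact h.2
  · rw [Finset.disjoint_left]
    intro l hl
    simp only [mem_filter, mem_univ, true_and, not_and] at hl ⊢
    intro h
    rw [h] at hl
    exact absurd hl (lt_irrefl _)

lemma card_filter_cell {w w' : Fin n → Fin N × Fin d} (h : ∀ c, cnt w c = cnt w' c)
    (P : Fin N → Prop) [DecidablePred P] :
    (univ.filter fun l => P (w l).1).card = (univ.filter fun l => P (w' l).1).card := by
  have key : ∀ v : Fin n → Fin N × Fin d, (univ.filter fun l => P (v l).1).card =
      ∑ c ∈ univ.filter P, cnt v c := by
    intro v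
    rw [card_eq_sum_card_fiberwise (f := fun l => (v l).1) (t := univ.filter P)]
    · refine sum_congr rfl fun c hc => ?_
      unfold cnt
      congr 1
      ext l
      simp only [mem_filter, mem_univ, true_and] at hc ⊢
      constructor
      · exact fun h => h.2
      · intro h
        exact ⟨h ▸ hc, h⟩
    · intro l hl
      simpa using hl
  rw [key w, key w']
  exact sum_congr rfl fun c _ => h c

namespace Realizes

variable {τ : Fin N → ℕ} {σ : Fin d → ℕ} {κ : Equiv.Perm (Fin n)}
  {w : Fin n → Fin N × Fin d} {x y : Fin n → ℝ}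

lemma rkx (h : Realizes τ σ κ w x y) (i : Fin n) :
    rk x i = (univ.filter fun l => (w l).1 < (w i).1).card + inn w x i := by
  have := rk_eq_add w x (fun c : Fin N => (c : ℕ)) Fin.val_injective
    (fun i j hij => h.hx1 i j hij) i
  simpa using this

lemma rky (hτ : Function.Injective τ) (h : Realizes τ σ κ w x y) (i : Fin n) :
    rk y i = (univ.filter fun l => τ (w l).1 < τ (w i).1).card + inn w y i :=
  rk_eq_add w y τ hτ h.hy1 i

/-- The position of a point determines its cell. -/
lemma cell_eq {κ' : Equiv.Perm (Fin n)} {w' : Fin n → Fin N × Fin d} {x' y' : Fin n → ℝ}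
    (h : Realizes τ σ κ w x y) (h' : Realizes τ σ κ' w' x' y') (hc : ∀ c, cnt w c = cnt w' c)
    {i i' : Fin n} (hi : rk x i = rk x' i') : (w i).1 = (w' i').1 ∧ inn w x i = inn w' x' i' := by
  have h1 := h.rkx i
  have h2 := h'.rkx i'
  have h3 := inn_lt w x i
  have h4 := inn_lt w' x' i'
  have key : ∀ (v : Fin n → Fin N × Fin d) (a b : Fin N), a < b →
      (univ.filter fun l => (v l).1 < a).card + cnt v a ≤
        (univ.filter fun l => (v l).1 < b).card := by
    intro v a b hab
    unfold cnt
    rw [← card_union_of_disjoint]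
    · apply card_le_card
      intro l hl
      simp only [mem_filter, mem_univ, true_and, mem_union] at hl ⊢
      rcases hl with hl | hl
      · exact hl.trans hab
      · rw [hl]; exact hab
    · rw [Finset.disjoint_left]
      intro l hl
      simp only [mem_filter, mem_univ, true_and] at hl ⊢
      exact hl.ne
  have hcell : (w i).1 = (w' i').1 := by
    rcases lt_trichotomy (w i).1 (w' i').1 with h5 | h5 | h5
    · have := key w _ _ h5
      rw [card_filter_cell hc (fun c => c < (w' i').1)] at this
      omega
    · exact h5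
    · have := key w' _ _ h5
      rw [← card_filter_cell hc (fun c => c < (w i).1)] at this
      omega
  refine ⟨hcell, ?_⟩
  have h6 := card_filter_cell hc (fun c => c < (w i).1)
  rw [hcell] at h6 h1
  omega

end Realizes

end Pool.Agent.Lib.MP_bd876b_pr
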