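import Mathlib

/-!
Definitions for the statement of problem MP_bd876b_pr: the refinement steps, the fractal
permuton, patterns of points and the sampling entropy.
-/

namespace Pool.Agent.Lib.MP_bd876b_pr

open MeasureTheory Filter Topology

variable {d : ℕ}

/-- The lower left corner of the square of side `d ^ (-k)` kept after the first `k` refinement
steps in the columns `u 0, ..., u (k - 1)`; the permutation used in the square kept in the columns
`v 0, ..., v (k - 1)` is `s [v 0, ..., v (k - 1)]`. -/
noncomputable def corner (s : List (Fin d) → Equiv.Perm (Fin d)) :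
    (k : ℕ) → (Fin k → Fin d) → ℝ × ℝ
  | 0, _ => 0
  | k + 1, u => corner s k (fun i => u i.castSucc) +
      ((((u (Fin.last k) : Fin d) : ℕ) : ℝ) * ((d : ℝ) ^ (k + 1))⁻¹,
        (((s (List.ofFn fun i => u i.castSucc) (u (Fin.last k)) : Fin d) : ℕ) : ℝ) *
          ((d : ℝ) ^ (k + 1))⁻¹)

/-- The uniform distribution on the unit square. -/
noncomputable def unitSquare : Measure (ℝ × ℝ) :=
  volume.restrict (Set.Icc (0 : ℝ) 1 ×ˢ Set.Icc (0 : ℝ) 1)

/-- The measure obtained after `k` refinement steps: it is uniformly distributed on the `d ^ k`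
kept squares of side `d ^ (-k)`, each of which has mass `d ^ (-k)`. -/
noncomputable def refined (s : List (Fin d) → Equiv.Perm (Fin d)) (k : ℕ) : Measure (ℝ × ℝ) :=
  ∑ u : Fin k → Fin d,
    ((d : ENNReal)⁻¹ ^ k) • unitSquare.map fun p => corner s k u + ((d : ℝ) ^ k)⁻¹ • p

/-- `μ` is the fractal permuton with the refinement permutations `s`: the probability measure
which is the weak limit of the refined measures. -/
structure IsFractalPermuton (s : List (Fin d) → Equiv.Perm (Fin d)) (μ : Measure (ℝ × ℝ)) :
    Prop where
  prob : IsProbabilityMeasure μ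
  lim : ∀ f : BoundedContinuousFunction (ℝ × ℝ) ℝ,
    Tendsto (fun k => ∫ p, f p ∂(refined s k)) atTop (𝓝 (∫ p, f p ∂μ))

/-- List the points by increasing first coordinate and record the relative order of the
second coordinates: `pattern z a` is the rank of the second coordinate of the `a`-th point. -/
noncomputable def pattern {n : ℕ} (z : Fin n → ℝ × ℝ) : Equiv.Perm (Fin n) :=
  (Tuple.sort fun a => (z (Tuple.sort (fun i => (z i).1) a)).2)⁻¹

/-- The sampling entropy: the entropy of the law of the pattern of `n` independent points
with law `μ`. -/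
noncomputable def samplingEntropy (μ : Measure (ℝ × ℝ)) (n : ℕ) : ℝ :=
  ∑ κ : Equiv.Perm (Fin n),
    Real.negMulLog ((Measure.pi fun _ : Fin n => μ).real {z | pattern z = κ})

end Pool.Agent.Lib.MP_bd876b_pr
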