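import Mathlib

/-!
Digit sequences, the numbers of the cells which contain them, and their order.
-/

namespace Pool.Agent.Lib.MP_bd876b_pr

open Finset

variable {d : ℕ}

/-- The number of the cell of level `K` containing a digit sequence. -/
def key : ℕ → (ℕ → Fin d) → ℕ
  | 0, _ => 0
  | K + 1, a => d * key K a + a K

lemma key_succ (K : ℕ) (a : ℕ → Fin d) : key (K + 1) a = d * key K a + a K := rfl

lemma key_lt (K : ℕ) (a : ℕ → Fin d) : key K a < d ^ K := by
  induction K with
  | zero => simp [key]
  | succ K ih =>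
    have := (a K).isLt
    calc key (K + 1) a = d * key K a + a K := rfl
      _ < d * key K a + d := by omega
      _ = d * (key K a + 1) := by ring
      _ ≤ d * d ^ K := Nat.mul_le_mul_left _ ih
      _ = d ^ (K + 1) := (pow_succ' ..).symm

lemma key_succ_div (K : ℕ) (a : ℕ → Fin d) : key (K + 1) a / d = key K a := by
  have h := (a K).isLt
  rw [key_succ, Nat.mul_add_div (by omega), Nat.div_eq_of_lt h, add_zero]

lemma key_succ_mod (K : ℕ) (a : ℕ → Fin d) : key (K + 1) a % d = a K := by
  have h := (a K).isLt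
  rw [key_succ, Nat.mul_add_mod, Nat.mod_eq_of_lt h]

/-- The vertical position of the cells of level `K`. -/
def tau [NeZero d] (σ : Fin d → Fin d) : ℕ → ℕ → ℕ
  | 0, _ => 0
  | K + 1, v => d * tau σ K (v / d) + σ (Fin.ofNat d v)

lemma tau_key [NeZero d] (σ : Fin d → Fin d) (K : ℕ) (a : ℕ → Fin d) :
    tau σ K (key K a) = key K (fun k => σ (a k)) := by
  induction K with
  | zero => rfl
  | succ K ih =>
    have h : Fin.ofNat d (key (K + 1) a) = a K := by
      apply Fin.ext
      rw [Fin.val_ofNat, key_succ_mod]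
    rw [tau, key_succ_div, ih, h, key_succ]

lemma tau_inj [NeZero d] {σ : Fin d → Fin d} (hσ : Function.Injective σ) (K : ℕ) :
    ∀ u v : ℕ, u < d ^ K → v < d ^ K → tau σ K u = tau σ K v → u = v := by
  induction K with
  | zero =>
    intro u v hu hv _
    simp at hu hv
    omega
  | succ K ih =>
    intro u v hu hv h
    have hd : 0 < d := NeZero.pos d
    rw [tau, tau] at h
    have h1 := (σ (Fin.ofNat d u)).isLt
    have h2 := (σ (Fin.ofNat d v)).isLt
    have h3 : tau σ K (u / d) = tau σ K (v / d) := by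
      have := congrArg (· / d) h
      simp only [Nat.mul_add_div hd, Nat.div_eq_of_lt h1, Nat.div_eq_of_lt h2, add_zero] at this
      exact this
    rw [h3] at h
    have h4 : σ (Fin.ofNat d u) = σ (Fin.ofNat d v) := Fin.ext (by omega)
    have h5 := congrArg Fin.val (hσ h4)
    rw [Fin.val_ofNat, Fin.val_ofNat] at h5
    have h6 : u / d = v / d := by
      apply ih _ _ _ _ h3
      · rw [Nat.div_lt_iff_lt_mul hd, ← pow_succ]
        exact hu
      · rw [Nat.div_lt_iff_lt_mul hd, ← pow_succ]
        exact hv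
    rw [← Nat.div_add_mod u d, ← Nat.div_add_mod v d, h5, h6]

lemma exists_digits [NeZero d] (K : ℕ) : ∀ v < d ^ K, ∃ e : ℕ → Fin d, ∀ a : ℕ → Fin d,
    key K a = v ↔ ∀ j ∈ range K, a j = e j := by
  induction K with
  | zero =>
    intro v hv
    refine ⟨fun _ => 0, fun a => ?_⟩
    simp at hv
    simp [key, hv]
  | succ K ih =>
    intro v hv
    have hd : 0 < d := NeZero.pos d
    obtain ⟨e, he⟩ := ih (v / d) (by
      rw [Nat.div_lt_iff_lt_mul hd, ← pow_succ]
      exact hv)
    refine ⟨Function.update e K (Fin.ofNat d v), fun a => ?_⟩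
    constructor
    · intro h j hj
      have h1 : key K a = v / d := by rw [← h, key_succ_div]
      rw [he] at h1
      rcases eq_or_ne j K with rfl | hjK
      · rw [Function.update_self]
        apply Fin.ext
        rw [Fin.val_ofNat, ← h, key_succ_mod]
      · rw [Function.update_of_ne hjK]
        apply h1
        rw [mem_range] at hj ⊢
        omega
    · intro h
      have h1 : key K a = v / d := by
        rw [he]
        intro j hj
        have := h j (by rw [mem_range] at hj ⊢; omega)
        rwa [Function.update_of_ne (by rw [mem_range] at hj; omega)] at this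
      have h2 := h K (by simp)
      rw [Function.update_self] at h2
      rw [key_succ, h1, h2, Fin.val_ofNat, Nat.div_add_mod]

lemma sum_ofDigitsTerm (K : ℕ) (a : ℕ → Fin d) :
    ∑ i ∈ range K, Real.ofDigitsTerm a i = key K a * ((d : ℝ) ^ K)⁻¹ := by
  have hd : (d : ℝ) ≠ 0 := by
    have := (a 0).isLt
    exact_mod_cast (by omega : d ≠ 0)
  induction K with
  | zero => simp [key]
  | succ K ih =>
    rw [sum_range_succ, ih, Real.ofDigitsTerm, key_succ]
    push_cast
    field_simp
    ring

/-- Infinitely many digits are not zero. -/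
def Good (a : ℕ → Fin d) : Prop := ∀ K, ∃ k, K ≤ k ∧ 0 < (a k : ℕ)

lemma ofDigits_pos {a : ℕ → Fin d} {k : ℕ} (h : 0 < (a k : ℕ)) : 0 < Real.ofDigits a := by
  have hd : (0 : ℝ) < d := by
    have := (a 0).isLt
    exact_mod_cast (by omega : 0 < d)
  refine Real.summable_ofDigitsTerm.tsum_pos (fun _ => Real.ofDigitsTerm_nonneg) k ?_
  unfold Real.ofDigitsTerm
  have : (0 : ℝ) < (a k : ℕ) := by exact_mod_cast h
  positivity

lemma ofDigits_lt {a b : ℕ → Fin d} (hb : Good b) {K : ℕ} (h : key K a < key K b) :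
    Real.ofDigits a < Real.ofDigits b := by
  have hd : (0 : ℝ) < d := by
    have := (a 0).isLt
    exact_mod_cast (by omega : 0 < d)
  have hdK : (0 : ℝ) < ((d : ℝ) ^ K)⁻¹ := by positivity
  rw [Real.ofDigits_eq_sum_add_ofDigits a K, Real.ofDigits_eq_sum_add_ofDigits b K,
    sum_ofDigitsTerm, sum_ofDigitsTerm]
  have h1 := Real.ofDigits_le_one fun i => a (i + K)
  have h2 : 0 < Real.ofDigits fun i => b (i + K) := by
    obtain ⟨k, hk, hbk⟩ := hb K
    refine ofDigits_pos (k := k - K) ?_
    rwa [Nat.sub_add_cancel hk]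
  have h3 : (key K a : ℝ) + 1 ≤ key K b := by exact_mod_cast h
  nlinarith

lemma key_ne {a b : ℕ → Fin d} (h : a ≠ b) : ∃ K, key K a ≠ key K b := by
  by_contra hc
  push Not at hc
  apply h
  funext k
  apply Fin.ext
  rw [← key_succ_mod k a, ← key_succ_mod k b, hc]

lemma ofDigits_ne {a b : ℕ → Fin d} (ha : Good a) (hb : Good b) (h : a ≠ b) :
    Real.ofDigits a ≠ Real.ofDigits b := by
  obtain ⟨K, hK⟩ := key_ne h
  rcases lt_or_gt_of_ne hK with h1 | h1
  · exact (ofDigits_lt hb h1).ne
  · exact (ofDigits_lt ha h1).ne'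

end Pool.Agent.Lib.MP_bd876b_pr
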