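import Pool.Agent.Lib.MP_bd876b_pr.JointLaw

/-!
The sampling entropy of the fractal permuton of the tent permutation oscillates.
-/

namespace Pool.Agent.Lib.MP_bd876b_pr

open Finset MeasureTheory Filter Topology

/-- The tent permutation: identity on the first half, reversal of the second half. -/
def tentFun (m : ℕ) (a : Fin (2 * m)) : Fin (2 * m) :=
  if h : (a : ℕ) < m then a else ⟨3 * m - 1 - a, by have := a.isLt; omega⟩

lemma tentFun_val (m : ℕ) (a : Fin (2 * m)) :
    (tentFun m a : ℕ) = if (a : ℕ) < m then (a : ℕ) else 3 * m - 1 - a := by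
  unfold tentFun
  split_ifs <;> rfl

lemma tentFun_involutive (m : ℕ) : Function.Involutive (tentFun m) := by
  intro a
  have ha := a.isLt
  apply Fin.ext
  rw [tentFun_val, tentFun_val]
  split_ifs <;> omega

/-- The tent permutation. -/
def tent (m : ℕ) : Equiv.Perm (Fin (2 * m)) := (tentFun_involutive m).toPerm _

lemma tent_val (m : ℕ) (a : Fin (2 * m)) :
    (tent m a : ℕ) = if (a : ℕ) < m then (a : ℕ) else 3 * m - 1 - a := tentFun_val m a

lemma isTent (m : ℕ) : IsTent m fun j : Fin (2 * m) => (tent m j : ℕ) where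
  low a ha := by
    rw [tent_val, if_pos ha]
    exact ha
  high a ha := by
    have := a.isLt
    rw [tent_val, if_neg (by omega)]
    omega
  mono a b hab hb := by
    have h : (a : ℕ) < b := hab
    rw [tent_val, tent_val, if_pos hb, if_pos (by omega)]
    exact h
  anti a b ha hab := by
    have h : (a : ℕ) < b := hab
    have hb := b.isLt
    rw [tent_val, tent_val, if_neg (by omega), if_neg (by omega)]
    omega

variable {d : ℕ} [NeZero d]

/-- The lower bound along the powers of `d`. -/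
theorem entropy_lower {m : ℕ} (hm : 1 ≤ m) (hdm : d = 2 * m) (σ : Equiv.Perm (Fin d))
    (hσ : IsTent m fun j : Fin d => (σ j : ℕ)) {K : ℕ} (hK : 1 ≤ K) :
    Real.log ((m + 1 : ℝ) / d)⁻¹ / (4 * Real.exp 1) * (d ^ K : ℕ) ≤
      samplingEntropy (permuton fun _ : List (Fin d) => σ) (d ^ K) := by
  have hd : 2 ≤ d := by omega
  have hN : 2 ≤ d ^ K := hd.trans (Nat.le_self_pow (by omega) d)
  have h := (joint hd σ (d ^ K) K).lower hm hdm hσ hN rfl
  rw [samplingEntropy_eq σ (d ^ K) K]
  refine le_trans (le_of_eq ?_) h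
  ring

/-- The upper bound along the multiples `M * d ^ K`. -/
theorem entropy_upper {m : ℕ} (hm : 1 ≤ m) (hdm : d = 2 * m) (σ : Equiv.Perm (Fin d))
    (hσ : IsTent m fun j : Fin d => (σ j : ℕ)) {M K : ℕ} (hM : 1 ≤ M) (hK : 1 ≤ K) :
    samplingEntropy (permuton fun _ : List (Fin d) => σ) (M * d ^ K) ≤
      ((2 * Real.log (M + 1) + 1 + Real.log 2) / M + 16 * M * Real.exp (3 * M) / d) *
        (M * d ^ K : ℕ) := by
  have hd : 2 ≤ d := by omega
  have hN : 2 ≤ d ^ K := hd.trans (Nat.le_self_pow (by omega) d)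
  have hτ : Function.Injective fun c : Fin (d ^ K) => tau σ K c := by
    intro u v h
    exact Fin.ext (tau_inj σ.injective K u v u.isLt v.isLt h)
  have h := (joint hd σ (M * d ^ K) K).upper hτ hσ hM (by omega) (by omega) rfl
    (hN.trans (Nat.le_mul_of_pos_left _ hM))
  rw [samplingEntropy_eq σ (M * d ^ K) K]
  refine h.trans (le_of_eq ?_)
  have hM' : (0 : ℝ) < M := by exact_mod_cast hM
  have hd' : (0 : ℝ) < d := by exact_mod_cast (by omega : 0 < d)
  have hdK : (0 : ℝ) < (d : ℝ) ^ K := by positivity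
  push_cast
  have e1 : 3 * ((M : ℝ) * (d : ℝ) ^ K) / (d : ℝ) ^ K = 3 * M := by field_simp
  rw [e1]
  field_simp

/-- No convergence for large `m`. -/
theorem no_limit (hd1024 : 1024 * 1600 * Real.exp (3 * 1024) ≤ d) {m : ℕ} (hm : 5 ≤ m)
    (hdm : d = 2 * m) (σ : Equiv.Perm (Fin d))
    (hσ : IsTent m fun j : Fin d => (σ j : ℕ)) :
    ¬ ∃ c : ℝ, Tendsto
      (fun n : ℕ => samplingEntropy (permuton fun _ : List (Fin d) => σ) n / n) atTop (𝓝 c) := by
  rintro ⟨c, hc⟩
  have hd : 2 ≤ d := by omega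
  have hd' : (0 : ℝ) < d := by exact_mod_cast (by omega : 0 < d)
  have hm' : (5 : ℝ) ≤ m := by exact_mod_cast hm
  have hpow : Tendsto (fun K : ℕ => d ^ K) atTop atTop := tendsto_pow_atTop_atTop_of_one_lt hd
  have hpow2 : Tendsto (fun K : ℕ => 1024 * d ^ K) atTop atTop :=
    Tendsto.const_mul_atTop' (by norm_num) hpow
  have h1 := hc.comp hpow
  have h2 := hc.comp hpow2
  -- lower bound
  have hlow : (0.036 : ℝ) ≤ c := by
    refine ge_of_tendsto h1 ?_
    filter_upwards [eventually_ge_atTop 1] with K hK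
    have h3 := entropy_lower (by omega) hdm σ hσ hK
    have hN : (0 : ℝ) < (d ^ K : ℕ) := by positivity
    rw [Function.comp_apply, le_div_iff₀ hN]
    refine le_trans ?_ h3
    apply mul_le_mul_of_nonneg_right _ hN.le
    rw [le_div_iff₀ (by positivity)]
    have h4 : (0.4 : ℝ) ≤ Real.log ((m + 1 : ℝ) / d)⁻¹ := by
      have h5 := Real.add_one_le_exp (Real.log ((m + 1 : ℝ) / d))
      rw [Real.exp_log (by positivity)] at h5
      have h6 : (m + 1 : ℝ) / d ≤ 0.6 := by
        rw [div_le_iff₀ hd', hdm]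
        push_cast
        linarith
      rw [Real.log_inv]
      linarith
    have h7 := Real.exp_one_lt_d9
    linarith
  have hup : c ≤ (0.03 : ℝ) := by
    refine le_of_tendsto h2 ?_
    filter_upwards [eventually_ge_atTop 1] with K hK
    have h3 := entropy_upper (M := 1024) (by omega) hdm σ hσ (by norm_num) hK
    have hN : (0 : ℝ) < (1024 * d ^ K : ℕ) := by positivity
    rw [Function.comp_apply, div_le_iff₀ hN]
    refine h3.trans ?_
    apply mul_le_mul_of_nonneg_right _ hN.le
    have h4 : Real.log ((1024 : ℕ) + 1 : ℝ) ≤ 11 * Real.log 2 := by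
      rw [← Real.log_rpow (by norm_num)]
      apply Real.log_le_log (by norm_num)
      norm_num
    have h5 := Real.log_two_lt_d9
    have h6 : 16 * ((1024 : ℕ) : ℝ) * Real.exp (3 * (1024 : ℕ)) / d ≤ 0.01 := by
      rw [div_le_iff₀ hd', Nat.cast_ofNat]
      have h7 : (1024 : ℝ) * 1600 * Real.exp (3 * 1024) ≤ d := hd1024
      generalize Real.exp (3 * (1024 : ℝ)) = E at h7 ⊢
      linarith
    have h8 : (2 * Real.log ((1024 : ℕ) + 1 : ℝ) + 1 + Real.log 2) / ((1024 : ℕ) : ℝ) ≤ 0.02 := by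
      rw [div_le_iff₀ (by norm_num)]
      generalize Real.log ((1024 : ℕ) + 1 : ℝ) = L at h4 ⊢
      rw [Nat.cast_ofNat]
      linarith
    generalize (2 * Real.log ((1024 : ℕ) + 1 : ℝ) + 1 + Real.log 2) / ((1024 : ℕ) : ℝ) = u at h8 ⊢
    generalize 16 * ((1024 : ℕ) : ℝ) * Real.exp (3 * (1024 : ℕ)) / d = v at h6 ⊢
    linarith
  linarith

end Pool.Agent.Lib.MP_bd876b_pr
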