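import Pool.Agent.Lib.MP_bd876b_pr.Prob
import Pool.Agent.Lib.MP_bd876b_pr.Bounds

/-!
The joint law of the pattern and of the cells and columns of the points.
-/

namespace Pool.Agent.Lib.MP_bd876b_pr

open Finset MeasureTheory Filter Topology

variable {d : ℕ} [NeZero d]

/-- The cell of level `K` and the column in it. -/
def pos (K : ℕ) (a : ℕ → Fin d) : Fin (d ^ K) × Fin d := (⟨key K a, key_lt K a⟩, a K)

omit [NeZero d] in
lemma measurable_key (K : ℕ) : Measurable fun a : ℕ → Fin d => key K a := by
  induction K with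
  | zero => exact measurable_const
  | succ K ih =>
    have h : Measurable fun a : ℕ → Fin d => ((a K : Fin d) : ℕ) :=
      (measurable_of_countable (fun j : Fin d => (j : ℕ))).comp (measurable_pi_apply K)
    exact (measurable_const.mul ih).add h

lemma digitLaw_pos (K : ℕ) (c : Fin (d ^ K) × Fin d) :
    digitLaw d {a | pos K a = c} = ((d : ENNReal)⁻¹) ^ (K + 1) := by
  have hc := c.1.isLt
  have hj := c.2.isLt
  have h : {a : ℕ → Fin d | pos K a = c} = {a | key (K + 1) a = d * c.1 + c.2} := by
    ext a
    simp only [Set.mem_ofPred_eq]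
    constructor
    · rintro rfl
      rfl
    · intro h
      have h1 := key_succ_div K a
      have h2 := key_succ_mod K a
      rw [h, Nat.mul_add_div (by omega), Nat.div_eq_of_lt hj, add_zero] at h1
      rw [h, Nat.mul_add_mod, Nat.mod_eq_of_lt hj] at h2
      apply Prod.ext
      · exact Fin.ext h1.symm
      · exact Fin.ext h2.symm
  rw [h, digitLaw_key]
  calc d * c.1 + c.2 < d * c.1 + d := by omega
    _ = d * (c.1 + 1) := by ring
    _ ≤ d * d ^ K := Nat.mul_le_mul_left _ hc
    _ = d ^ (K + 1) := (pow_succ' ..).symm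

variable (d) in
/-- The law of `n` independent digit sequences. -/
noncomputable abbrev law (n : ℕ) : Measure (Fin n → ℕ → Fin d) := Measure.pi fun _ => digitLaw d

lemma law_pos (n K : ℕ) (w : Fin n → Fin (d ^ K) × Fin d) :
    law d n {ω | (fun i => pos K (ω i)) = w} = (((d : ENNReal)⁻¹) ^ (K + 1)) ^ n := by
  have h : {ω : Fin n → ℕ → Fin d | (fun i => pos K (ω i)) = w} =
      Set.pi Set.univ fun i => {a | pos K a = w i} := by
    ext ω
    simp [funext_iff]
  rw [h, Measure.pi_pi]
  simp only [digitLaw_pos, prod_const, card_univ, Fintype.card_fin]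

omit [NeZero d] in
lemma inv_lt_one' (hd : 2 ≤ d) : (d : ENNReal)⁻¹ < 1 := by
  rw [ENNReal.inv_lt_one]
  exact_mod_cast hd

lemma ae_infinitely (hd : 2 ≤ d) (c : Fin d) :
    ∀ᵐ a ∂(digitLaw d), ∀ K, ∃ k, K ≤ k ∧ a k ≠ c := by
  rw [ae_all_iff]
  intro K
  rw [ae_iff]
  have h : ∀ L, digitLaw d {a | ¬ ∃ k, K ≤ k ∧ a k ≠ c} ≤ ((d : ENNReal)⁻¹) ^ L := by
    intro L
    calc digitLaw d {a | ¬ ∃ k, K ≤ k ∧ a k ≠ c}
        ≤ digitLaw d {a | ∀ j ∈ Ico K (K + L), a j = (fun _ => c) j} := by
          apply measure_mono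
          intro a ha j hj
          by_contra hc
          exact ha ⟨j, (mem_Ico.mp hj).1, hc⟩
      _ = ((d : ENNReal)⁻¹) ^ L := by
          rw [digitLaw_pi, Nat.card_Ico]
          simp
  exact le_antisymm (ge_of_tendsto'
    (ENNReal.tendsto_pow_atTop_nhds_zero_of_lt_one (inv_lt_one' hd)) h) (zero_le)

lemma ae_ne (hd : 2 ≤ d) {n : ℕ} {i j : Fin n} (hij : i ≠ j) :
    ∀ᵐ ω ∂(law d n), ω i ≠ ω j := by
  rw [ae_iff]
  have h : ∀ K, law d n {ω | ¬ (ω i ≠ ω j)} ≤ ((d : ENNReal)⁻¹) ^ K := by
    intro K
    calc law d n {ω | ¬ (ω i ≠ ω j)}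
        ≤ law d n (⋃ v ∈ range (d ^ K), Set.pi Set.univ fun l =>
            if l = i ∨ l = j then {a | key K a = v} else Set.univ) := by
          apply measure_mono
          intro ω hω
          simp only [ne_eq, not_not, Set.mem_ofPred_eq] at hω
          simp only [Set.mem_iUnion]
          refine ⟨key K (ω i), mem_range.mpr (key_lt K _), ?_⟩
          intro l _
          beta_reduce
          by_cases hl : l = i ∨ l = j
          · rw [if_pos hl]
            rcases hl with rfl | rfl
            · rfl
            · change key K (ω l) = key K (ω i)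
              rw [hω]
          · rw [if_neg hl]
            trivial
      _ ≤ ∑ v ∈ range (d ^ K), law d n (Set.pi Set.univ fun l =>
            if l = i ∨ l = j then {a | key K a = v} else Set.univ) := measure_biUnion_finset_le _ _
      _ = ∑ v ∈ range (d ^ K), (((d : ENNReal)⁻¹) ^ K) ^ 2 := by
          refine sum_congr rfl fun v hv => ?_
          rw [Measure.pi_pi]
          have h2 : ∀ l, digitLaw d (if l = i ∨ l = j then {a | key K a = v} else Set.univ) =
              if l = i ∨ l = j then ((d : ENNReal)⁻¹) ^ K else 1 := by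
            intro l
            split_ifs
            · exact digitLaw_key K v (mem_range.mp hv)
            · exact measure_univ
          rw [prod_congr rfl fun l _ => h2 l, prod_ite, prod_const_one, mul_one, prod_const]
          congr 1
          have h3 : (univ.filter fun l : Fin n => l = i ∨ l = j) = {i, j} := by
            ext l
            simp
          rw [h3, card_pair hij]
      _ = ((d : ENNReal)⁻¹) ^ K := by
          rw [sum_const, card_range, nsmul_eq_mul, pow_two, ← mul_assoc]
          have h4 : ((d ^ K : ℕ) : ENNReal) * ((d : ENNReal)⁻¹) ^ K = 1 := by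
            rw [Nat.cast_pow, ← mul_pow, ENNReal.mul_inv_cancel, one_pow]
            · exact_mod_cast (NeZero.ne d)
            · exact ENNReal.natCast_ne_top d
          rw [h4, one_mul]
  exact le_antisymm (ge_of_tendsto'
    (ENNReal.tendsto_pow_atTop_nhds_zero_of_lt_one (inv_lt_one' hd)) h) (zero_le)

/-- The points: abscissa and ordinate. -/
noncomputable def point (σ : Equiv.Perm (Fin d)) (a : ℕ → Fin d) : ℝ × ℝ :=
  (Real.ofDigits a, Real.ofDigits fun k => σ (a k))

omit [NeZero d] in
lemma measurable_point (σ : Equiv.Perm (Fin d)) : Measurable (point σ) := by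
  refine Measurable.prodMk Real.continuous_ofDigits.measurable ?_
  refine Real.continuous_ofDigits.measurable.comp ?_
  exact measurable_pi_lambda _ fun k => (measurable_of_countable σ).comp (measurable_pi_apply k)

omit [NeZero d] in
lemma measurable_pos (K : ℕ) : Measurable (pos (d := d) K) := by
  have h : Measurable fun a : ℕ → Fin d => (key K a, a K) :=
    (measurable_key K).prodMk (measurable_pi_apply K)
  refine measurable_to_countable' fun c => ?_
  have h2 : pos K ⁻¹' {c} = (fun a : ℕ → Fin d => (key K a, a K)) ⁻¹' {((c.1 : ℕ), c.2)} := by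
    ext a
    simp only [Set.mem_preimage, Set.mem_singleton_iff, pos, Prod.ext_iff, Fin.ext_iff]
  rw [h2]
  exact h (measurableSet_singleton _)

/-- The law of the pattern together with the cells and columns. -/
noncomputable def jl (σ : Equiv.Perm (Fin d)) (n K : ℕ) (κ : Equiv.Perm (Fin n))
    (w : Fin n → Fin (d ^ K) × Fin d) : ℝ :=
  (law d n).real ({ω | pattern (fun i => point σ (ω i)) = κ} ∩ {ω | (fun i => pos K (ω i)) = w})

omit [NeZero d] in
lemma measurableSet_jl1 (σ : Equiv.Perm (Fin d)) (n : ℕ) (κ : Equiv.Perm (Fin n)) :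
    MeasurableSet {ω : Fin n → ℕ → Fin d | pattern (fun i => point σ (ω i)) = κ} := by
  have h : Measurable fun ω : Fin n → ℕ → Fin d => fun i => point σ (ω i) :=
    measurable_pi_lambda _ fun i => (measurable_point σ).comp (measurable_pi_apply i)
  exact h (measurableSet_pattern n κ)

omit [NeZero d] in
lemma measurableSet_jl2 (n K : ℕ) (w : Fin n → Fin (d ^ K) × Fin d) :
    MeasurableSet {ω : Fin n → ℕ → Fin d | (fun i => pos K (ω i)) = w} := by
  have h : Measurable fun ω : Fin n → ℕ → Fin d => fun i => pos K (ω i) :=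
    measurable_pi_lambda _ fun i => (measurable_pos K).comp (measurable_pi_apply i)
  exact h (measurableSet_singleton w)

lemma sum_fibers {Ω A : Type*} [MeasurableSpace Ω] [Fintype A] (μ : Measure Ω)
    [IsFiniteMeasure μ] (f : Ω → A) (hf : ∀ a, MeasurableSet {ω | f ω = a}) (B : Set Ω) :
    ∑ a, μ.real ({ω | f ω = a} ∩ B) = μ.real B := by
  have h := sum_measureReal_preimage_singleton (μ := μ.restrict B) (univ : Finset A) (f := f)
    (fun a _ => hf a)
  simp only [coe_univ, Set.preimage_univ] at h
  rw [measureReal_restrict_apply_univ] at h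
  rw [← h]
  refine sum_congr rfl fun a _ => ?_
  rw [measureReal_restrict_apply (show MeasurableSet (f ⁻¹' {a}) from hf a)]
  rfl

lemma good_ae (hd : 2 ≤ d) (σ : Equiv.Perm (Fin d)) (n : ℕ) :
    ∀ᵐ ω ∂(law d n), (∀ i, Good (ω i) ∧ Good fun k => σ (ω i k)) ∧
      ∀ i j, i ≠ j → ω i ≠ ω j := by
  have h1 : ∀ᵐ a ∂(digitLaw d), Good a ∧ Good fun k => σ (a k) := by
    filter_upwards [ae_infinitely hd 0, ae_infinitely hd (σ.symm 0)] with a h1 h2
    constructor
    · intro K
      obtain ⟨k, hk, h⟩ := h1 K
      exact ⟨k, hk, Nat.pos_of_ne_zero fun h0 => h (Fin.ext h0)⟩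
    · intro K
      obtain ⟨k, hk, h⟩ := h2 K
      refine ⟨k, hk, Nat.pos_of_ne_zero fun h0 => h ?_⟩
      rw [Equiv.eq_symm_apply]
      exact Fin.ext h0
  have h2 : ∀ᵐ ω ∂(law d n), ∀ i, Good (ω i) ∧ Good fun k => σ (ω i k) := by
    rw [ae_all_iff]
    intro i
    exact (Measure.tendsto_eval_ae_ae (μ := fun _ : Fin n => digitLaw d) (i := i)).eventually h1
  have h3 : ∀ᵐ ω ∂(law d n), ∀ i j, i ≠ j → ω i ≠ ω j := by
    rw [ae_all_iff]
    intro i
    rw [ae_all_iff]
    intro j
    by_cases hij : i = j
    · exact Eventually.of_forall fun ω h => absurd hij h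
    · filter_upwards [ae_ne hd hij] with ω hω _ using hω
  filter_upwards [h2, h3] with ω h2 h3 using ⟨h2, h3⟩

theorem joint (hd : 2 ≤ d) (σ : Equiv.Perm (Fin d)) (n K : ℕ) :
    Joint (N := d ^ K) (fun c => tau σ K c) (fun j => (σ j : ℕ)) (jl σ n K) where
  nonneg _ _ := measureReal_nonneg
  marg w := by
    unfold jl
    rw [sum_fibers (law d n) (fun ω => pattern (fun i => point σ (ω i)))
      (measurableSet_jl1 σ n), measureReal_def, law_pos]
    rw [ENNReal.toReal_pow, ENNReal.toReal_pow, ENNReal.toReal_inv, ENNReal.toReal_natCast,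
      inv_pow, inv_pow]
    push_cast
    rw [pow_succ]
  real κ w hp := by
    have h0 : law d n ({ω | pattern (fun i => point σ (ω i)) = κ} ∩
        {ω | (fun i => pos K (ω i)) = w}) ≠ 0 := by
      intro h
      unfold jl at hp
      rw [measureReal_def, h] at hp
      simp at hp
    obtain ⟨ω, ⟨hω1, hω2⟩, hgood, hne⟩ : ∃ ω : Fin n → ℕ → Fin d, ω ∈ ({ω | pattern (fun i => point σ (ω i)) = κ} ∩
        {ω | (fun i => pos K (ω i)) = w}) ∧ (∀ i, Good (ω i) ∧ Good fun k => σ (ω i k)) ∧
        ∀ i j, i ≠ j → ω i ≠ ω j := by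
      by_contra hc
      push Not at hc
      apply h0
      refine measure_mono_null ?_ (ae_iff.mp (good_ae hd σ n))
      intro ω hω hg
      obtain ⟨i, j, hij, h⟩ := hc ω hω hg.1
      exact hg.2 i j hij h
    simp only [Set.mem_ofPred_eq] at hω1 hω2
    have hw : ∀ i, w i = pos K (ω i) := fun i => (congrFun hω2 i).symm
    have hinjx : Function.Injective fun i => (point σ (ω i)).1 := by
      intro i j h
      by_contra hij
      exact ofDigits_ne (hgood i).1 (hgood j).1 (hne i j hij) h
    have hinjy : Function.Injective fun i => (point σ (ω i)).2 := by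
      intro i j h
      by_contra hij
      refine ofDigits_ne (hgood i).2 (hgood j).2 ?_ h
      intro hc
      apply hne i j hij
      funext k
      exact σ.injective (congrFun hc k)
    refine ⟨fun i => (point σ (ω i)).1, fun i => (point σ (ω i)).2, hinjx, hinjy, ?_, ?_, ?_, ?_,
      ?_⟩
    · intro i j h
      rw [hw, hw] at h
      exact ofDigits_lt (hgood j).1 (K := K) h
    · intro i j h1 h2
      rw [hw, hw] at h1 h2
      refine ofDigits_lt (hgood j).1 (K := K + 1) ?_
      have h3 : key K (ω i) = key K (ω j) := congrArg Fin.val h1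
      have h4 : (ω i K : ℕ) < ω j K := h2
      rw [key_succ, key_succ, h3]
      omega
    · intro i j h
      rw [hw, hw] at h
      have h' : tau σ K (key K (ω i)) < tau σ K (key K (ω j)) := h
      rw [tau_key, tau_key] at h'
      exact ofDigits_lt (hgood j).2 h'
    · intro i j h1 h2
      rw [hw, hw] at h1 h2
      refine ofDigits_lt (hgood j).2 (K := K + 1) ?_
      have h3 : key K (ω i) = key K (ω j) := congrArg Fin.val h1
      have h4 : (σ (ω i K) : ℕ) < σ (ω j K) := h2
      rw [key_succ, key_succ, ← tau_key, ← tau_key, h3]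
      omega
    · intro i
      have := pattern_apply (z := fun i => point σ (ω i)) hinjx hinjy i
      rw [hω1] at this
      exact this

omit [NeZero d] in
lemma twist_const (σ : Equiv.Perm (Fin d)) (a : ℕ → Fin d) :
    twist (fun _ => σ) a = fun k => σ (a k) := rfl

lemma samplingEntropy_eq (σ : Equiv.Perm (Fin d)) (n K : ℕ) :
    samplingEntropy (permuton fun _ => σ) n =
      ∑ κ, Real.negMulLog (∑ w, jl σ n K κ w) := by
  unfold samplingEntropy
  refine sum_congr rfl fun κ _ => ?_
  congr 1
  have h1 : permuton (fun _ : List (Fin d) => σ) = (digitLaw d).map (point σ) := rfl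
  have h2 : IsProbabilityMeasure ((digitLaw d).map (point σ)) :=
    Measure.isProbabilityMeasure_map (measurable_point σ).aemeasurable
  have h4 : Measurable fun ω : Fin n → ℕ → Fin d => fun i => point σ (ω i) :=
    measurable_pi_lambda _ fun i => (measurable_point σ).comp (measurable_pi_apply i)
  rw [h1, ← Measure.pi_map_pi (μ := fun _ : Fin n => digitLaw d)
    (fun _ => (measurable_point σ).aemeasurable), map_measureReal_apply h4
    (measurableSet_pattern n κ)]
  unfold jl
  have h3 := sum_fibers (law d n) (fun ω => (fun i => pos K (ω i)))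
    (measurableSet_jl2 n K) {ω | pattern (fun i => point σ (ω i)) = κ}
  rw [show (fun ω : Fin n → ℕ → Fin d => fun i => point σ (ω i)) ⁻¹' {z | pattern z = κ} =
    {ω | pattern (fun i => point σ (ω i)) = κ} from rfl, ← h3]
  refine sum_congr rfl fun w _ => ?_
  rw [Set.inter_comm]

end Pool.Agent.Lib.MP_bd876b_pr
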