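import Pool.Agent.Lib.MP_bd876b_pr.Upper

/-!
Points whose column is still free, given the cells and the pattern.
-/

namespace Pool.Agent.Lib.MP_bd876b_pr

open Finset

variable {n N d : ℕ}

/-- The cell of `j` contains exactly one further point, which has a smaller label and lies in the
right half of the cell. -/
def free (m : ℕ) (w : Fin n → Fin N × Fin d) (j : Fin n) : Prop :=
  ∃ i, i < j ∧ (w i).1 = (w j).1 ∧ (∀ l, (w l).1 = (w j).1 → l = i ∨ l = j) ∧ m ≤ ((w i).2 : ℕ)

open Classical in
/-- Forget the columns of the free points. -/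
noncomputable def zero (m : ℕ) [NeZero d] (w : Fin n → Fin N × Fin d) (l : Fin n) :
    Fin N × Fin d :=
  if free m w l then ((w l).1, 0) else w l

lemma zero_fst (m : ℕ) [NeZero d] (w : Fin n → Fin N × Fin d) (l : Fin n) :
    (zero m w l).1 = (w l).1 := by
  unfold zero
  split_ifs <;> rfl

lemma partner_not_free {m : ℕ} {w : Fin n → Fin N × Fin d} {i j : Fin n} (hij : i < j)
    (h1 : (w i).1 = (w j).1) (h2 : ∀ l, (w l).1 = (w j).1 → l = i ∨ l = j) : ¬ free m w i := by
  rintro ⟨i', hi', h3, -, -⟩
  rcases h2 i' (h3.trans h1) with h | h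
  · rw [h] at hi'
    exact lt_irrefl _ hi'
  · rw [h] at hi'
    exact lt_asymm hi' hij

lemma free_zero {m : ℕ} [NeZero d] (w : Fin n → Fin N × Fin d) (j : Fin n) :
    free m (zero m w) j ↔ free m w j := by
  constructor
  · rintro ⟨i, hij, h1, h2, h3⟩
    rw [zero_fst, zero_fst] at h1
    have h2' : ∀ l, (w l).1 = (w j).1 → l = i ∨ l = j := by
      intro l hl
      apply h2 l
      rw [zero_fst, zero_fst]
      exact hl
    have hnf : ¬ free m w i := partner_not_free hij h1 h2'
    refine ⟨i, hij, h1, h2', ?_⟩
    unfold zero at h3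
    rwa [if_neg hnf] at h3
  · rintro ⟨i, hij, h1, h2, h3⟩
    have hnf : ¬ free m w i := partner_not_free hij h1 h2
    refine ⟨i, hij, ?_, ?_, ?_⟩
    · rw [zero_fst, zero_fst]
      exact h1
    · intro l hl
      rw [zero_fst, zero_fst] at hl
      exact h2 l hl
    · unfold zero
      rwa [if_neg hnf]

lemma inn_pair {w : Fin n → Fin N × Fin d} {x : Fin n → ℝ} {i j : Fin n}
    (h1 : (w i).1 = (w j).1) (h2 : ∀ l, (w l).1 = (w j).1 → l = i ∨ l = j) (h : x i < x j) :
    inn w x i = 0 ∧ inn w x j = 1 := by
  constructor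
  · unfold inn
    rw [card_eq_zero, filter_eq_empty_iff]
    rintro l - ⟨h3, h4⟩
    rcases h2 l (h3.trans h1) with h5 | h5
    · rw [h5] at h4
      exact lt_irrefl _ h4
    · rw [h5] at h4
      exact lt_asymm h4 h
  · unfold inn
    rw [card_eq_one]
    refine ⟨i, ?_⟩
    ext l
    simp only [mem_filter, mem_univ, true_and, mem_singleton]
    constructor
    · rintro ⟨h3, h4⟩
      rcases h2 l h3 with h5 | h5
      · exact h5
      · rw [h5] at h4
        exact absurd h4 (lt_irrefl _)
    · rintro rfl
      exact ⟨h1, h⟩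

/-- The pattern is decreasing between the positions `b` and `b + 1`. -/
def Inv (κ : Equiv.Perm (Fin n)) (b : ℕ) : Prop :=
  ∃ p q : Fin n, (p : ℕ) = b ∧ (q : ℕ) = b + 1 ∧ κ q < κ p

namespace Realizes

variable {τ : Fin N → ℕ} {σ : Fin d → ℕ} {κ : Equiv.Perm (Fin n)}
  {w : Fin n → Fin N × Fin d} {x y : Fin n → ℝ}

/-- The two points of a cell occupy consecutive positions. -/
lemma inv_iff (h : Realizes τ σ κ w x y) {i j : Fin n}
    (h1 : (w i).1 = (w j).1) (h2 : ∀ l, (w l).1 = (w j).1 → l = i ∨ l = j) (hx : x i < x j) :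
    Inv κ ((univ.filter fun l => (w l).1 < (w j).1).card) ↔ y j < y i := by
  obtain ⟨hi, hj⟩ := inn_pair h1 h2 hx
  have ri := h.rkx i
  have rj := h.rkx j
  rw [hi, h1, add_zero] at ri
  rw [hj] at rj
  constructor
  · rintro ⟨p, q, hp, hq, hpq⟩
    have hp' : p = ⟨rk x i, rk_lt x i⟩ := Fin.ext (hp.trans ri.symm)
    have hq' : q = ⟨rk x j, rk_lt x j⟩ := Fin.ext (hq.trans rj.symm)
    rw [hp', hq', h.hκ, h.hκ] at hpq
    exact (rk_lt_rk_iff h.injy).mp hpq
  · intro hy
    refine ⟨⟨rk x i, rk_lt x i⟩, ⟨rk x j, rk_lt x j⟩, ri, rj, ?_⟩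
    rw [h.hκ, h.hκ]
    exact rk_lt_rk hy

lemma inv_iff' (h : Realizes τ σ κ w x y) {i j : Fin n}
    (h1 : (w i).1 = (w j).1) (h2 : ∀ l, (w l).1 = (w j).1 → l = i ∨ l = j) (hx : x j < x i) :
    Inv κ ((univ.filter fun l => (w l).1 < (w j).1).card) ↔ y i < y j := by
  have := h.inv_iff (i := j) (j := i) h1.symm (fun l hl => (h2 l (hl.trans h1)).symm) hx
  rw [h1] at this
  exact this

/-- The column of a free point, given the pattern. -/
lemma col_mem {m : ℕ} (hσ : IsTent m σ) (h : Realizes τ σ κ w x y) {i j : Fin n}
    (h1 : (w i).1 = (w j).1) (h2 : ∀ l, (w l).1 = (w j).1 → l = i ∨ l = j)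
    (h3 : m ≤ ((w i).2 : ℕ)) :
    (Inv κ ((univ.filter fun l => (w l).1 < (w j).1).card) → m ≤ ((w j).2 : ℕ)) ∧
    (¬ Inv κ ((univ.filter fun l => (w l).1 < (w j).1).card) →
      ((w j).2 : ℕ) < m ∨ (w j).2 = (w i).2) := by
  constructor
  · intro hinv
    by_contra hc
    push Not at hc
    have hlt : (w j).2 < (w i).2 := by
      change ((w j).2 : ℕ) < ((w i).2 : ℕ)
      omega
    have hx := h.hx2 j i h1.symm hlt
    have hy := h.hy2 j i h1.symm (lt_of_lt_of_le (hσ.low _ hc) (hσ.high _ h3))
    have := (h.inv_iff' h1 h2 hx).mp hinv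
    exact lt_asymm this hy
  · intro hinv
    by_contra hc
    push Not at hc
    obtain ⟨h4, h5⟩ := hc
    rcases lt_or_gt_of_ne h5 with h6 | h6
    · have hx := h.hx2 j i h1.symm h6
      have hy := h.hy2 i j h1 (hσ.anti _ _ h4 h6)
      exact hinv ((h.inv_iff' h1 h2 hx).mpr hy)
    · have hx := h.hx2 i j h1 h6
      have hy := h.hy2 j i h1.symm (hσ.anti _ _ h3 h6)
      exact hinv ((h.inv_iff h1 h2 hx).mpr hy)

end Realizes

open Classical in
/-- The number of free points. -/
noncomputable def numFree (m : ℕ) (w : Fin n → Fin N × Fin d) : ℕ :=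
  (univ.filter fun j => free m w j).card

open Classical in
lemma card_fiber_realizes_le {m : ℕ} [NeZero d] (hd : d = 2 * m) {τ : Fin N → ℕ}
    {σ : Fin d → ℕ} (hσ : IsTent m σ) (κ : Equiv.Perm (Fin n)) (γ : Fin n → Fin N × Fin d) :
    (univ.filter fun w : Fin n → Fin N × Fin d =>
      zero m w = γ ∧ ∃ x y, Realizes τ σ κ w x y).card ≤ (m + 1) ^ numFree m γ := by
  set K : Fin n → Finset (Fin N × Fin d) := fun j =>
    if hj : free m γ j then
      (if Inv κ ((univ.filter fun l => (γ l).1 < (γ j).1).card) then
        (univ.filter fun a : Fin d => m ≤ (a : ℕ)).image (fun a => ((γ j).1, a))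
      else (insert (γ hj.choose).2 (univ.filter fun a : Fin d => (a : ℕ) < m)).image
        (fun a => ((γ j).1, a)))
    else {γ j} with hK
  have hsub : (univ.filter fun w : Fin n → Fin N × Fin d =>
      zero m w = γ ∧ ∃ x y, Realizes τ σ κ w x y) ⊆ Fintype.piFinset K := by
    intro w hw
    simp only [mem_filter, mem_univ, true_and] at hw
    obtain ⟨hz, x, y, h⟩ := hw
    rw [Fintype.mem_piFinset]
    intro j
    have hfst : ∀ l, (γ l).1 = (w l).1 := fun l => by rw [← hz, zero_fst]
    by_cases hj : free m γ j
    · have hj' : free m w j := by rw [← hz, free_zero] at hj; exact hj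
      obtain ⟨hij, h1, h2, h3⟩ := hj.choose_spec
      have h1' : (w hj.choose).1 = (w j).1 := by rw [← hfst, ← hfst]; exact h1
      have h2' : ∀ l, (w l).1 = (w j).1 → l = hj.choose ∨ l = j := by
        intro l hl
        apply h2 l
        rw [hfst, hfst]
        exact hl
      have hnf : ¬ free m w hj.choose := partner_not_free hij h1' h2'
      have hwi : γ hj.choose = w hj.choose := by
        have h9 := congrFun hz hj.choose
        unfold zero at h9
        rw [if_neg hnf] at h9
        exact h9.symm
      have h3' : m ≤ ((w hj.choose).2 : ℕ) := by rw [← hwi]; exact h3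
      obtain ⟨hA, hB⟩ := h.col_mem hσ h1' h2' h3'
      have hbase : (univ.filter fun l => (γ l).1 < (γ j).1).card =
          (univ.filter fun l => (w l).1 < (w j).1).card := by
        simp_rw [hfst]
      simp only [hK, dif_pos hj]
      split_ifs with hinv
      · rw [hbase] at hinv
        rw [mem_image]
        exact ⟨(w j).2, by simpa using hA hinv, Prod.ext (hfst j) rfl⟩
      · rw [hbase] at hinv
        rw [mem_image]
        refine ⟨(w j).2, ?_, Prod.ext (hfst j) rfl⟩
        rw [mem_insert, hwi]
        rcases hB hinv with h4 | h4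
        · right
          simpa using h4
        · left
          exact h4
    · have hj' : ¬ free m w j := by rw [← hz, free_zero] at hj; exact hj
      simp only [hK, dif_neg hj, mem_singleton]
      have h9 := congrFun hz j
      unfold zero at h9
      rw [if_neg hj'] at h9
      exact h9
  have hlow : (univ.filter fun a : Fin d => (a : ℕ) < m).card ≤ m := by
    have h1 : (univ.filter fun a : Fin d => (a : ℕ) < m).card ≤ (range m).card := by
      apply card_le_card_of_injOn (fun a : Fin d => (a : ℕ))
      · intro a ha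
        simpa using ha
      · intro a _ b _ hab
        exact Fin.ext hab
    simpa using h1
  have hhigh : (univ.filter fun a : Fin d => m ≤ (a : ℕ)).card ≤ m := by
    have h1 : (univ.filter fun a : Fin d => m ≤ (a : ℕ)).card ≤ (Ico m d).card := by
      apply card_le_card_of_injOn (fun a : Fin d => (a : ℕ))
      · intro a ha
        simp only [coe_filter, mem_univ, true_and, Set.mem_ofPred_eq] at ha
        simp only [coe_Ico, Set.mem_Ico]
        exact ⟨ha, a.isLt⟩
      · intro a _ b _ hab
        exact Fin.ext hab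
    rw [Nat.card_Ico] at h1
    omega
  have hKcard : ∀ j, (K j).card ≤ if free m γ j then m + 1 else 1 := by
    intro j
    by_cases hj : free m γ j
    · simp only [hK, dif_pos hj, if_pos hj]
      split_ifs
      · exact card_image_le.trans (hhigh.trans (Nat.le_succ m))
      · exact card_image_le.trans ((card_insert_le _ _).trans (Nat.succ_le_succ hlow))
    · simp only [hK, dif_neg hj, if_neg hj, card_singleton, le_refl]
  calc _ ≤ (Fintype.piFinset K).card := card_le_card hsub
    _ = ∏ j, (K j).card := Fintype.card_piFinset K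
    _ ≤ ∏ j, (if free m γ j then m + 1 else 1) :=
        prod_le_prod (fun _ _ => Nat.zero_le _) fun j _ => hKcard j
    _ = (m + 1) ^ numFree m γ := by
        rw [prod_ite, prod_const, prod_const_one, mul_one]
        rfl

open Classical in
lemma le_card_fiber {m : ℕ} [NeZero d] (w₀ : Fin n → Fin N × Fin d) :
    d ^ numFree m (zero m w₀) ≤
      (univ.filter fun w : Fin n → Fin N × Fin d => zero m w = zero m w₀).card := by
  set γ := zero m w₀ with hγ
  set K : Fin n → Finset (Fin N × Fin d) := fun j =>
    if free m γ j then univ.image (fun a : Fin d => ((γ j).1, a)) else {γ j} with hK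
  have hsub : Fintype.piFinset K ⊆
      (univ.filter fun w : Fin n → Fin N × Fin d => zero m w = γ) := by
    intro w hw
    rw [Fintype.mem_piFinset] at hw
    simp only [mem_filter, mem_univ, true_and]
    have hfst : ∀ l, (w l).1 = (γ l).1 := by
      intro l
      have := hw l
      simp only [hK] at this
      split_ifs at this
      · simp only [mem_image, mem_univ, true_and] at this
        obtain ⟨a, ha⟩ := this
        rw [← ha]
      · rw [mem_singleton] at this
        rw [this]
    have hnf : ∀ l, ¬ free m γ l → w l = γ l := by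
      intro l hl
      have := hw l
      simp only [hK, if_neg hl, mem_singleton] at this
      exact this
    have hfree : ∀ l, free m w l ↔ free m γ l := by
      intro l
      constructor
      · rintro ⟨i, hij, h1, h2, h3⟩
        have h1' : (γ i).1 = (γ l).1 := by rw [← hfst, ← hfst]; exact h1
        have h2' : ∀ k, (γ k).1 = (γ l).1 → k = i ∨ k = l := by
          intro k hk
          apply h2 k
          rw [hfst, hfst]
          exact hk
        refine ⟨i, hij, h1', h2', ?_⟩
        rw [← hnf i (partner_not_free hij h1' h2')]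
        exact h3
      · rintro ⟨i, hij, h1, h2, h3⟩
        refine ⟨i, hij, ?_, ?_, ?_⟩
        · rw [hfst, hfst]; exact h1
        · intro k hk
          rw [hfst, hfst] at hk
          exact h2 k hk
        · rw [hnf i (partner_not_free hij h1 h2)]
          exact h3
    funext l
    unfold zero
    split_ifs with hl
    · have hl' := (hfree l).mp hl
      have hl0 : free m w₀ l := by rw [hγ, free_zero] at hl'; exact hl'
      have h5 : γ l = ((w₀ l).1, 0) := by
        rw [hγ]
        unfold zero
        rw [if_pos hl0]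
      rw [hfst l, h5]
    · exact hnf l (fun hl' => hl ((hfree l).mpr hl'))
  calc d ^ numFree m γ = ∏ j, (if free m γ j then d else 1) := by
        rw [prod_ite, prod_const, prod_const_one, mul_one]
        rfl
    _ = ∏ j, (K j).card := by
        refine prod_congr rfl fun j _ => ?_
        simp only [hK]
        split_ifs
        · rw [card_image_of_injective _ (fun a b h => by simpa using h)]
          simp
        · simp
    _ = (Fintype.piFinset K).card := (Fintype.card_piFinset K).symm
    _ ≤ _ := card_le_card hsub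

lemma numFree_zero {m : ℕ} [NeZero d] (w : Fin n → Fin N × Fin d) :
    numFree m (zero m w) = numFree m w := by
  unfold numFree
  congr 1
  ext j
  simp [free_zero]

end Pool.Agent.Lib.MP_bd876b_pr
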