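import Pool.Agent.Lib.MP_bd876b_pr.Lower

/-!
Counting free points.
-/

namespace Pool.Agent.Lib.MP_bd876b_pr

open Finset

variable {n N d : ℕ}

lemma prod_two {n : ℕ} {i j : Fin n} (hij : i ≠ j) {R : Type*} [CommMonoid R] (f : Fin n → R)
    (a : R) (h : ∀ l, l ≠ i → l ≠ j → f l = a) : ∏ l, f l = f i * f j * a ^ (n - 2) := by
  have hj : j ∈ univ.erase i := by simp [hij.symm]
  rw [← mul_prod_erase univ f (mem_univ i), ← mul_prod_erase (univ.erase i) f hj, ← mul_assoc]
  congr 1
  have h1 : ∏ l ∈ (univ.erase i).erase j, f l = ∏ l ∈ (univ.erase i).erase j, a := by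
    refine prod_congr rfl fun l hl => ?_
    simp only [mem_erase, mem_univ, and_true] at hl
    exact h l hl.2 hl.1
  rw [h1, prod_const]
  congr 1
  rw [card_erase_of_mem hj, card_erase_of_mem (mem_univ i), card_univ, Fintype.card_fin]
  omega

/-- The cell of `i` and `j` contains no other point, and `i` lies in its right half. -/
def pairAt (m : ℕ) (w : Fin n → Fin N × Fin d) (i j : Fin n) : Prop :=
  (w i).1 = (w j).1 ∧ (∀ l, (w l).1 = (w j).1 → l = i ∨ l = j) ∧ m ≤ ((w i).2 : ℕ)

lemma card_col (v : Fin N × Fin d) :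
    (univ.filter fun u : Fin N × Fin d => u.1 = v.1).card = d := by
  have h : (univ.filter fun u : Fin N × Fin d => u.1 = v.1) =
      ({v.1} : Finset (Fin N)) ×ˢ (univ : Finset (Fin d)) := by
    ext u
    simp only [mem_filter, mem_univ, true_and, mem_product, mem_singleton, and_true]
  rw [h, card_product]
  simp

lemma card_not_col (v : Fin N × Fin d) :
    (univ.filter fun u : Fin N × Fin d => u.1 ≠ v.1).card = (N - 1) * d := by
  have h : (univ.filter fun u : Fin N × Fin d => u.1 ≠ v.1) =
      (univ.erase v.1 : Finset (Fin N)) ×ˢ (univ : Finset (Fin d)) := by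
    ext u
    simp
  rw [h, card_product, card_erase_of_mem (mem_univ _)]
  simp

open Classical in
lemma le_card_pairAt {m : ℕ} (hd : d = 2 * m) {i j : Fin n} (hij : i ≠ j) :
    N * m * (d * ((N - 1) * d) ^ (n - 2)) ≤
      (univ.filter fun w : Fin n → Fin N × Fin d => pairAt m w i j).card := by
  set V : Finset (Fin N × Fin d) := univ.filter fun v => m ≤ (v.2 : ℕ) with hV
  have hVcard : N * m ≤ V.card := by
    have h1 : V = (univ : Finset (Fin N)) ×ˢ (univ.filter fun a : Fin d => m ≤ (a : ℕ)) := by
      ext u
      simp [hV]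
    rw [h1, card_product, card_univ, Fintype.card_fin]
    apply Nat.mul_le_mul_left
    have h2 : (univ : Finset (Fin m)).card ≤
        (univ.filter fun a : Fin d => m ≤ (a : ℕ)).card := by
      apply card_le_card_of_injOn (fun t : Fin m => (⟨m + t, by omega⟩ : Fin d))
      · intro t ht
        simp
      · intro t ht s hs hts
        simp only [Fin.mk.injEq] at hts
        exact Fin.ext (by omega)
    simpa using h2
  set S : (Fin N × Fin d) → Fin n → Finset (Fin N × Fin d) := fun v l =>
    if l = i then {v} else if l = j then univ.filter (fun u => u.1 = v.1)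
    else univ.filter (fun u => u.1 ≠ v.1) with hS
  have hScard : ∀ v, (Fintype.piFinset (S v)).card = d * ((N - 1) * d) ^ (n - 2) := by
    intro v
    rw [Fintype.card_piFinset, prod_two hij _ ((N - 1) * d)]
    · simp only [hS, if_true, hij.symm, if_false, card_singleton, card_col, one_mul]
    · intro l h1 h2
      simp only [hS, h1, h2, if_false]
      exact card_not_col v
  have hdisj : Set.PairwiseDisjoint (V : Set (Fin N × Fin d)) (fun v => Fintype.piFinset (S v)) := by
    intro v _ v' _ hvv'
    change Disjoint (Fintype.piFinset (S v)) (Fintype.piFinset (S v'))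
    rw [Finset.disjoint_left]
    intro w hw hw'
    rw [Fintype.mem_piFinset] at hw hw'
    have h1 := hw i
    have h2 := hw' i
    simp only [hS, if_true, mem_singleton] at h1 h2
    exact hvv' (h1.symm.trans h2)
  have hsub : V.biUnion (fun v => Fintype.piFinset (S v)) ⊆
      (univ.filter fun w : Fin n → Fin N × Fin d => pairAt m w i j) := by
    intro w hw
    rw [mem_biUnion] at hw
    obtain ⟨v, hv, hw⟩ := hw
    rw [Fintype.mem_piFinset] at hw
    simp only [mem_filter, mem_univ, true_and]
    have h1 : w i = v := by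
      have := hw i
      simpa only [hS, if_true, mem_singleton] using this
    have h2 : (w j).1 = v.1 := by
      have := hw j
      simpa only [hS, hij.symm, if_false, if_true, mem_filter, mem_univ, true_and] using this
    refine ⟨by rw [h1, h2], ?_, ?_⟩
    · intro l hl
      by_contra hc
      push Not at hc
      have := hw l
      simp only [hS, hc.1, hc.2, if_false, mem_filter, mem_univ, true_and] at this
      exact this (hl.trans h2)
    · rw [h1]
      simpa [hV] using hv
  calc N * m * (d * ((N - 1) * d) ^ (n - 2)) ≤ V.card * (d * ((N - 1) * d) ^ (n - 2)) :=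
        Nat.mul_le_mul_right _ hVcard
    _ = ∑ v ∈ V, (Fintype.piFinset (S v)).card := by
        rw [sum_congr rfl fun v _ => hScard v, sum_const, smul_eq_mul]
    _ = (V.biUnion (fun v => Fintype.piFinset (S v))).card := (card_biUnion hdisj).symm
    _ ≤ _ := card_le_card hsub

open Classical in
lemma sum_pairAt_le (m : ℕ) (w : Fin n → Fin N × Fin d) (j : Fin n) :
    (∑ i ∈ Iio j, if pairAt m w i j then 1 else 0) ≤ if free m w j then 1 else 0 := by
  by_cases hj : free m w j
  · obtain ⟨i₀, hi₀, h1, h2, h3⟩ := hj
    rw [if_pos ⟨i₀, hi₀, h1, h2, h3⟩]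
    calc (∑ i ∈ Iio j, if pairAt m w i j then 1 else 0)
        ≤ ∑ i ∈ Iio j, if i = i₀ then 1 else 0 := by
          refine sum_le_sum fun i hi => ?_
          rw [mem_Iio] at hi
          by_cases hp : pairAt m w i j
          · rcases h2 i hp.1 with h4 | h4
            · rw [if_pos hp, if_pos h4]
            · exact absurd h4 hi.ne
          · rw [if_neg hp]
            exact Nat.zero_le _
      _ ≤ 1 := by
          rw [sum_ite_eq']
          split_ifs <;> omega
  · rw [if_neg hj]
    rw [Nat.le_zero, sum_eq_zero_iff]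
    intro i hi
    rw [mem_Iio] at hi
    rw [if_neg]
    intro hp
    exact hj ⟨i, hi, hp.1, hp.2.1, hp.2.2⟩

lemma le_sum_numFree {m : ℕ} (hd : d = 2 * m) :
    n * (n - 1) / 2 * (N * m * (d * ((N - 1) * d) ^ (n - 2))) ≤
      ∑ w : Fin n → Fin N × Fin d, numFree m w := by
  classical
  have h1 : ∀ w : Fin n → Fin N × Fin d, numFree m w = ∑ j, if free m w j then 1 else 0 := by
    intro w
    unfold numFree
    rw [card_filter]
  have h2 : ∑ w : Fin n → Fin N × Fin d, numFree m w ≥
      ∑ j : Fin n, ∑ i ∈ Iio j, (univ.filter fun w : Fin n → Fin N × Fin d =>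
        pairAt m w i j).card := by
    calc ∑ j : Fin n, ∑ i ∈ Iio j, (univ.filter fun w : Fin n → Fin N × Fin d =>
          pairAt m w i j).card
        = ∑ j : Fin n, ∑ i ∈ Iio j, ∑ w : Fin n → Fin N × Fin d,
            (if pairAt m w i j then 1 else 0) := by
          refine sum_congr rfl fun j _ => sum_congr rfl fun i _ => ?_
          rw [card_filter]
      _ = ∑ w : Fin n → Fin N × Fin d, ∑ j : Fin n, ∑ i ∈ Iio j,
            (if pairAt m w i j then 1 else 0) := by
          rw [sum_comm]
          refine sum_congr rfl fun j _ => ?_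
          rw [sum_comm]
      _ ≤ ∑ w : Fin n → Fin N × Fin d, numFree m w := by
          refine sum_le_sum fun w _ => ?_
          rw [h1]
          exact sum_le_sum fun j _ => sum_pairAt_le m w j
  refine le_trans ?_ h2
  calc n * (n - 1) / 2 * (N * m * (d * ((N - 1) * d) ^ (n - 2)))
      = (∑ j : Fin n, (j : ℕ)) * (N * m * (d * ((N - 1) * d) ^ (n - 2))) := by
        congr 1
        rw [Fin.sum_univ_eq_sum_range (fun j => j) n, Finset.sum_range_id]
    _ = ∑ j : Fin n, ∑ i ∈ Iio j, (N * m * (d * ((N - 1) * d) ^ (n - 2))) := by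
        rw [sum_mul]
        refine sum_congr rfl fun j _ => ?_
        rw [sum_const, Fin.card_Iio, smul_eq_mul]
    _ ≤ _ := by
        refine sum_le_sum fun j _ => sum_le_sum fun i hi => ?_
        rw [mem_Iio] at hi
        exact le_card_pairAt hd hi.ne

end Pool.Agent.Lib.MP_bd876b_pr
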