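import Pool.Agent.Lib.MP_bd876b_pr.Defs

/-!
The permutation pattern of a finite family of points of the plane.
-/

namespace Pool.Agent.Lib.MP_bd876b_pr

open Finset

/-- The number of indices with a smaller value. -/
noncomputable def rk {n : ℕ} (x : Fin n → ℝ) (i : Fin n) : ℕ :=
  (univ.filter (fun j => x j < x i)).card

lemma rk_lt {n : ℕ} (x : Fin n → ℝ) (i : Fin n) : rk x i < n := by
  have h : (univ.filter (fun j => x j < x i)) ⊂ univ := by
    refine ssubset_univ_iff.mpr fun h => ?_
    have : i ∈ univ.filter (fun j => x j < x i) := by rw [h]; exact mem_univ i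
    simp at this
  simpa [rk] using card_lt_card h

lemma rk_comp_perm {n : ℕ} (x : Fin n → ℝ) (s : Equiv.Perm (Fin n)) (a : Fin n) :
    rk (x ∘ s) a = rk x (s a) := by
  unfold rk
  refine card_bij (fun b _ => s b) ?_ ?_ ?_
  · intro b hb
    simpa using hb
  · intro b _ c _ h
    exact s.injective h
  · intro j hj
    refine ⟨s.symm j, ?_, by simp⟩
    simpa using hj

lemma sort_inv_apply {n : ℕ} {x : Fin n → ℝ} (hx : Function.Injective x) (i : Fin n) :
    (((Tuple.sort x)⁻¹ i : Fin n) : ℕ) = rk x i := by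
  set s := Tuple.sort x with hs
  have hm : StrictMono (x ∘ s) :=
    (Tuple.monotone_sort x).strictMono_of_injective (hx.comp s.injective)
  obtain ⟨a, rfl⟩ := s.surjective i
  rw [← rk_comp_perm, show s⁻¹ (s a) = a from s.symm_apply_apply a]
  unfold rk
  have h : univ.filter (fun j => (x ∘ s) j < (x ∘ s) a) = Iio a := by
    ext j
    simp only [mem_filter, mem_univ, true_and, mem_Iio]
    exact hm.lt_iff_lt
  rw [h, Fin.card_Iio]

lemma pattern_apply {n : ℕ} {z : Fin n → ℝ × ℝ} (hx : Function.Injective fun i => (z i).1)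
    (hy : Function.Injective fun i => (z i).2) (i : Fin n) :
    pattern z ⟨rk (fun i => (z i).1) i, rk_lt _ i⟩ = ⟨rk (fun i => (z i).2) i, rk_lt _ i⟩ := by
  set s := Tuple.sort (fun i => (z i).1) with hs
  have h1 : (⟨rk (fun i => (z i).1) i, rk_lt _ i⟩ : Fin n) = s⁻¹ i := by
    ext
    exact (sort_inv_apply hx i).symm
  have h2 : pattern z = (Tuple.sort ((fun i => (z i).2) ∘ s))⁻¹ := rfl
  ext
  rw [h2, h1, sort_inv_apply (hy.comp s.injective), rk_comp_perm]
  simp

lemma rk_lt_rk {n : ℕ} {x : Fin n → ℝ} {i j : Fin n} (h : x i < x j) : rk x i < rk x j := by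
  apply card_lt_card
  refine ⟨fun l hl => ?_, fun hsub => ?_⟩
  · simp only [mem_filter, mem_univ, true_and] at hl ⊢
    exact hl.trans h
  · have : i ∈ univ.filter (fun l => x l < x i) := hsub (by simpa using h)
    simp at this

lemma rk_lt_rk_iff {n : ℕ} {x : Fin n → ℝ} (hx : Function.Injective x) {i j : Fin n} :
    rk x i < rk x j ↔ x i < x j := by
  constructor
  · intro h
    by_contra hc
    rcases (not_lt.mp hc).eq_or_lt with h1 | h1
    · rw [hx h1] at h
      exact lt_irrefl _ h
    · exact absurd (rk_lt_rk h1) (by omega)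
  · exact rk_lt_rk

lemma rk_injective {n : ℕ} {x : Fin n → ℝ} (hx : Function.Injective x) :
    Function.Injective fun i => (⟨rk x i, rk_lt x i⟩ : Fin n) := by
  intro i j h
  simp only [Fin.mk.injEq] at h
  rcases lt_trichotomy (x i) (x j) with h1 | h1 | h1
  · exact absurd (rk_lt_rk h1) (by omega)
  · exact hx h1
  · exact absurd (rk_lt_rk h1) (by omega)

lemma exists_rk {n : ℕ} {x : Fin n → ℝ} (hx : Function.Injective x) (a : Fin n) :
    ∃ i, rk x i = a := by
  obtain ⟨i, hi⟩ := (Finite.injective_iff_surjective.mp (rk_injective hx)) a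
  exact ⟨i, congrArg Fin.val hi⟩

end Pool.Agent.Lib.MP_bd876b_pr
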