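import Pool.Agent.Lib.MP_bd876b_pr.Digits
import Pool.Agent.Lib.MP_bd876b_pr.Pattern

/-!
The random fractal permuton and its sampling entropy.
-/

namespace Pool.Agent.Lib.MP_bd876b_pr

open Finset MeasureTheory

/-- The law of a sequence of independent uniformly distributed digits in base `d`. -/
noncomputable def digitLaw (d : ℕ) [NeZero d] : Measure (ℕ → Fin d) :=
  Measure.infinitePi fun _ : ℕ => (PMF.uniformOfFintype (Fin d)).toMeasure

/-- The automorphism of the rooted `d`-ary tree given by the permutations `s v` of the branches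
at the vertices `v`, as a map on the boundary of the tree. -/
def twist {d : ℕ} (s : List (Fin d) → Equiv.Perm (Fin d)) (a : ℕ → Fin d) (k : ℕ) : Fin d :=
  s (List.ofFn fun i : Fin k => a i) (a k)

/-- The permuton obtained by the refinement steps with the permutations `s v`: the law of the
point whose abscissa has uniformly distributed digits and whose ordinate has the digits twisted
by the automorphism of the tree. -/
noncomputable def permuton {d : ℕ} [NeZero d] (s : List (Fin d) → Equiv.Perm (Fin d)) :
    Measure (ℝ × ℝ) :=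
  (digitLaw d).map fun a => (Real.ofDigits a, Real.ofDigits (twist s a))

variable {d : ℕ} [NeZero d]

instance : IsProbabilityMeasure (digitLaw d) := by
  unfold digitLaw
  infer_instance

lemma measurableSet_sort (n : ℕ) (s : Equiv.Perm (Fin n)) :
    MeasurableSet {x : Fin n → ℝ | Tuple.sort x = s} := by
  have h : {x : Fin n → ℝ | Tuple.sort x = s} =
      {x | ∀ i j, i ≤ j → x (s i) ≤ x (s j)} ∩
      {x | ∀ i j, i < j → x (s i) = x (s j) → s i < s j} := by
    ext x
    rw [Set.mem_ofPred_eq, eq_comm, Tuple.eq_sort_iff]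
    rfl
  rw [h]
  apply MeasurableSet.inter
  · simp only [Set.ofPred_forall]
    refine MeasurableSet.iInter fun i => MeasurableSet.iInter fun j => MeasurableSet.iInter
      fun _ => ?_
    exact measurableSet_le (measurable_pi_apply _) (measurable_pi_apply _)
  · simp only [Set.ofPred_forall]
    refine MeasurableSet.iInter fun i => MeasurableSet.iInter fun j => MeasurableSet.iInter
      fun _ => ?_
    by_cases h : s i < s j
    · simp [h]
    · simp only [h, imp_false]
      exact (measurableSet_eq_fun (f := fun x : Fin n → ℝ => x (s i))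
        (g := fun x : Fin n → ℝ => x (s j)) (measurable_pi_apply _)
        (measurable_pi_apply _)).compl

lemma measurableSet_pattern (n : ℕ) (κ : Equiv.Perm (Fin n)) :
    MeasurableSet {z : Fin n → ℝ × ℝ | pattern z = κ} := by
  have h : {z : Fin n → ℝ × ℝ | pattern z = κ} = ⋃ s : Equiv.Perm (Fin n),
      ((fun z : Fin n → ℝ × ℝ => fun i => (z i).1) ⁻¹' {x | Tuple.sort x = s}) ∩
      ((fun z : Fin n → ℝ × ℝ => fun a => (z (s a)).2) ⁻¹' {y | Tuple.sort y = κ⁻¹}) := by
    ext z
    simp only [Set.mem_ofPred_eq, Set.mem_iUnion, Set.mem_inter_iff, Set.mem_preimage]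
    constructor
    · intro h
      refine ⟨_, rfl, ?_⟩
      rw [← h, pattern, inv_inv]
    · rintro ⟨s, rfl, h⟩
      rw [pattern, h, inv_inv]
  rw [h]
  refine MeasurableSet.iUnion fun s => MeasurableSet.inter ?_ ?_
  · have hm : Measurable fun z : Fin n → ℝ × ℝ => fun i => (z i).1 :=
      measurable_pi_lambda _ fun i => (measurable_pi_apply i).fst
    exact hm (measurableSet_sort n s)
  · have hm : Measurable fun z : Fin n → ℝ × ℝ => fun a => (z (s a)).2 :=
      measurable_pi_lambda _ fun i => (measurable_pi_apply (s i)).snd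
    exact hm (measurableSet_sort n _)

lemma digitLaw_pi (s : Finset ℕ) (e : ℕ → Fin d) :
    digitLaw d {a | ∀ j ∈ s, a j = e j} = ((d : ENNReal)⁻¹) ^ s.card := by
  have h : {a : ℕ → Fin d | ∀ j ∈ s, a j = e j} = Set.pi ↑s fun j => {e j} := by
    ext a
    simp
  rw [h, digitLaw, Measure.infinitePi_pi _ fun i _ => measurableSet_singleton _]
  have h2 : ∀ i ∈ s, (PMF.uniformOfFintype (Fin d)).toMeasure {e i} = (d : ENNReal)⁻¹ := by
    intro i _
    rw [PMF.toMeasure_apply_singleton _ _ (measurableSet_singleton _),
      PMF.uniformOfFintype_apply, Fintype.card_fin]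
  rw [prod_congr rfl h2, prod_const]

lemma digitLaw_key (K v : ℕ) (hv : v < d ^ K) :
    digitLaw d {a | key K a = v} = ((d : ENNReal)⁻¹) ^ K := by
  obtain ⟨e, he⟩ := exists_digits (d := d) K v hv
  have h : {a : ℕ → Fin d | key K a = v} = {a | ∀ j ∈ range K, a j = e j} := by
    ext a
    exact he a
  rw [h, digitLaw_pi, card_range]

end Pool.Agent.Lib.MP_bd876b_pr
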