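import Pool.Agent.Lib.MP_bd876b_pr.Cells

/-!
The pattern is determined by the number of points in the cells and in their left halves, and by
the patterns inside the cells with two points in one column.
-/

namespace Pool.Agent.Lib.MP_bd876b_pr

open Finset

variable {n N d : ℕ}

/-- The map is increasing on the first `m` columns and decreasing on the others, and the first
`m` columns stay below. -/
structure IsTent (m : ℕ) (σ : Fin d → ℕ) : Prop where
  low : ∀ a : Fin d, (a : ℕ) < m → σ a < m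
  high : ∀ a : Fin d, m ≤ (a : ℕ) → m ≤ σ a
  mono : ∀ a b : Fin d, a < b → (b : ℕ) < m → σ a < σ b
  anti : ∀ a b : Fin d, m ≤ (a : ℕ) → a < b → σ b < σ a

/-- Number of points in the left half of a cell. -/
def lft (m : ℕ) (w : Fin n → Fin N × Fin d) (c : Fin N) : ℕ :=
  (univ.filter fun l => (w l).1 = c ∧ ((w l).2 : ℕ) < m).card

lemma lft_le (m : ℕ) (w : Fin n → Fin N × Fin d) (c : Fin N) : lft m w c ≤ cnt w c := by
  apply card_le_card
  intro l hl
  simp only [mem_filter, mem_univ, true_and] at hl ⊢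
  exact hl.1

/-- Two points of the cell lie in the same column. -/
def bad (w : Fin n → Fin N × Fin d) (c : Fin N) : Prop :=
  ∃ i j, i ≠ j ∧ w i = w j ∧ (w i).1 = c

lemma inn_y_of_good {m : ℕ} {τ : Fin N → ℕ} {σ : Fin d → ℕ} {κ : Equiv.Perm (Fin n)}
    {w : Fin n → Fin N × Fin d} {x y : Fin n → ℝ} (hσ : IsTent m σ)
    (h : Realizes τ σ κ w x y) (i : Fin n) (hb : ¬ bad w (w i).1) :
    inn w y i = if inn w x i < lft m w (w i).1 then inn w x i
      else lft m w (w i).1 + (cnt w (w i).1 - 1 - inn w x i) := by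
  classical
  have hne : ∀ l, (w l).1 = (w i).1 → l ≠ i → (w l).2 ≠ (w i).2 := by
    intro l hl hli h2
    exact hb ⟨l, i, hli, Prod.ext hl h2, hl⟩
  have hxiff : ∀ l, (w l).1 = (w i).1 → (x l < x i ↔ (w l).2 < (w i).2) := by
    intro l hl
    rcases eq_or_ne l i with rfl | hli
    · simp
    · constructor
      · intro hx
        by_contra hc
        have h3 : (w i).2 < (w l).2 := lt_of_le_of_ne (not_lt.mp hc) (hne l hl hli).symm
        exact absurd (h.hx2 i l hl.symm h3) (not_lt.mpr hx.le)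
      · exact h.hx2 l i hl
  have hinnx : inn w x i = (univ.filter fun l => (w l).1 = (w i).1 ∧ (w l).2 < (w i).2).card := by
    unfold inn
    congr 1
    ext l
    simp only [mem_filter, mem_univ, true_and]
    constructor
    · rintro ⟨h1, h2⟩
      exact ⟨h1, (hxiff l h1).mp h2⟩
    · rintro ⟨h1, h2⟩
      exact ⟨h1, (hxiff l h1).mpr h2⟩
  by_cases hi : ((w i).2 : ℕ) < m
  · have hyiff : ∀ l, (w l).1 = (w i).1 → (y l < y i ↔ (w l).2 < (w i).2) := by
      intro l hl
      rcases eq_or_ne l i with rfl | hli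
      · simp
      · constructor
        · intro hy
          by_contra hc
          have h3 : (w i).2 < (w l).2 := lt_of_le_of_ne (not_lt.mp hc) (hne l hl hli).symm
          have h4 : σ (w i).2 < σ (w l).2 := by
            by_cases hlm : ((w l).2 : ℕ) < m
            · exact hσ.mono _ _ h3 hlm
            · exact lt_of_lt_of_le (hσ.low _ hi) (hσ.high _ (not_lt.mp hlm))
          exact absurd (h.hy2 i l hl.symm h4) (not_lt.mpr hy.le)
        · intro h3
          exact h.hy2 l i hl (hσ.mono _ _ h3 hi)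
    have hinny : inn w y i = inn w x i := by
      rw [hinnx]
      unfold inn
      congr 1
      ext l
      simp only [mem_filter, mem_univ, true_and]
      constructor
      · rintro ⟨h1, h2⟩
        exact ⟨h1, (hyiff l h1).mp h2⟩
      · rintro ⟨h1, h2⟩
        exact ⟨h1, (hyiff l h1).mpr h2⟩
    have hlt : inn w x i < lft m w (w i).1 := by
      rw [hinnx]
      apply card_lt_card
      refine ⟨fun l hl => ?_, fun hsub => ?_⟩
      · simp only [mem_filter, mem_univ, true_and] at hl ⊢
        exact ⟨hl.1, lt_trans hl.2 hi⟩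
      · have : i ∈ univ.filter fun l => (w l).1 = (w i).1 ∧ (w l).2 < (w i).2 :=
          hsub (by simp [hi])
        simp at this
    rw [if_pos hlt, hinny]
  · push Not at hi
    have hyiff : ∀ l, (w l).1 = (w i).1 →
        (y l < y i ↔ (((w l).2 : ℕ) < m ∨ (w i).2 < (w l).2)) := by
      intro l hl
      rcases eq_or_ne l i with rfl | hli
      · simp [hi]
      · constructor
        · intro hy
          by_contra hc
          push Not at hc
          obtain ⟨h5, h6⟩ := hc
          have h3 : (w l).2 < (w i).2 := lt_of_le_of_ne h6 (hne l hl hli)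
          exact absurd (h.hy2 i l hl.symm (hσ.anti _ _ h5 h3)) (not_lt.mpr hy.le)
        · rintro (h3 | h3)
          · exact h.hy2 l i hl (lt_of_lt_of_le (hσ.low _ h3) (hσ.high _ hi))
          · exact h.hy2 l i hl (hσ.anti _ _ hi h3)
    set B := univ.filter fun l => (w l).1 = (w i).1 ∧ (w i).2 < (w l).2 with hB
    have hinny : inn w y i = lft m w (w i).1 + B.card := by
      unfold inn lft
      rw [← card_union_of_disjoint]
      · congr 1
        ext l
        simp only [hB, mem_filter, mem_univ, true_and, mem_union]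
        constructor
        · rintro ⟨h1, h2⟩
          rcases (hyiff l h1).mp h2 with h3 | h3
          · exact Or.inl ⟨h1, h3⟩
          · exact Or.inr ⟨h1, h3⟩
        · rintro (⟨h1, h2⟩ | ⟨h1, h2⟩)
          · exact ⟨h1, (hyiff l h1).mpr (Or.inl h2)⟩
          · exact ⟨h1, (hyiff l h1).mpr (Or.inr h2)⟩
      · rw [Finset.disjoint_left]
        intro l hl hl2
        simp only [hB, mem_filter, mem_univ, true_and] at hl hl2
        have : (((w i).2 : Fin d) : ℕ) < ((w l).2 : ℕ) := hl2.2
        omega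
    have hcnt : cnt w (w i).1 = inn w x i + 1 + B.card := by
      rw [hinnx]
      have h7 : (univ.filter fun l => (w l).1 = (w i).1) =
          ((univ.filter fun l => (w l).1 = (w i).1 ∧ (w l).2 < (w i).2) ∪ {i}) ∪ B := by
        ext l
        simp only [hB, mem_filter, mem_univ, true_and, mem_union, mem_singleton]
        constructor
        · intro h1
          rcases eq_or_ne l i with rfl | hli
          · simp
          · rcases lt_or_gt_of_ne (hne l h1 hli) with h2 | h2
            · exact Or.inl (Or.inl ⟨h1, h2⟩)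
            · exact Or.inr ⟨h1, h2⟩
        · rintro ((h1 | h1) | h1)
          · exact h1.1
          · rw [h1]
          · exact h1.1
      unfold cnt
      rw [h7, card_union_of_disjoint, card_union_of_disjoint, card_singleton]
      · rw [Finset.disjoint_left]
        intro l hl hl2
        simp only [mem_filter, mem_univ, true_and, mem_singleton] at hl hl2
        rw [hl2] at hl
        exact lt_irrefl _ hl.2
      · rw [Finset.disjoint_left]
        intro l hl hl2
        simp only [hB, mem_filter, mem_univ, true_and, mem_union, mem_singleton] at hl hl2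
        rcases hl with hl | hl
        · exact lt_asymm hl.2 hl2.2
        · rw [hl] at hl2
          exact lt_irrefl _ hl2.2
    have hge : ¬ inn w x i < lft m w (w i).1 := by
      rw [hinnx, not_lt]
      apply card_le_card
      intro l hl
      simp only [mem_filter, mem_univ, true_and] at hl ⊢
      refine ⟨hl.1, ?_⟩
      change ((w l).2 : ℕ) < ((w i).2 : ℕ)
      omega
    rw [if_neg hge, hinny]
    omega

/-- Equality of the descriptions and of the in-cell ranks at the bad cells forces equality of the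
patterns. -/
lemma pattern_eq {m : ℕ} {τ : Fin N → ℕ} (hτ : Function.Injective τ) {σ : Fin d → ℕ}
    (hσ : IsTent m σ) {κ κ' : Equiv.Perm (Fin n)}
    {w w' : Fin n → Fin N × Fin d} {x y x' y' : Fin n → ℝ}
    (h : Realizes τ σ κ w x y) (h' : Realizes τ σ κ' w' x' y')
    (hc : ∀ c, cnt w c = cnt w' c) (hl : ∀ c, lft m w c = lft m w' c)
    (hbad : ∀ c, bad w c ↔ bad w' c)
    (hR : ∀ i i', rk x i = rk x' i' → bad w (w i).1 → rk y i = rk y' i') : κ = κ' := by
  ext a
  obtain ⟨i, hi⟩ := exists_rk h.injx a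
  obtain ⟨i', hi'⟩ := exists_rk h'.injx a
  have hrk : rk x i = rk x' i' := by rw [hi, hi']
  have ha : a = ⟨rk x i, rk_lt x i⟩ := Fin.ext hi.symm
  have ha' : a = ⟨rk x' i', rk_lt x' i'⟩ := Fin.ext hi'.symm
  have e1 : (κ a : ℕ) = rk y i := by rw [ha, h.hκ i]
  have e2 : (κ' a : ℕ) = rk y' i' := by rw [ha', h'.hκ i']
  rw [e1, e2]
  by_cases hb : bad w (w i).1
  · exact hR i i' hrk hb
  · obtain ⟨hcell, hinn⟩ := h.cell_eq h' hc hrk
    have hb' : ¬ bad w' (w' i').1 := by
      rw [← hcell, ← hbad]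
      exact hb
    rw [h.rky hτ i, h'.rky hτ i', inn_y_of_good hσ h i hb, inn_y_of_good hσ h' i' hb',
      hinn, hcell, hc, hl, card_filter_cell hc (fun c => τ c < τ (w' i').1)]

/-- The number of patterns with a given description. -/
lemma card_pattern_le {m : ℕ} {τ : Fin N → ℕ} (hτ : Function.Injective τ) {σ : Fin d → ℕ}
    (hσ : IsTent m σ) (w₀ : Fin n → Fin N × Fin d) [DecidablePred (bad w₀)]
    (S : Finset (Equiv.Perm (Fin n)))
    (hS : ∀ κ ∈ S, ∃ w x y, (∀ c, cnt w c = cnt w₀ c) ∧ (∀ c, lft m w c = lft m w₀ c) ∧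
      (∀ c, bad w c ↔ bad w₀ c) ∧ Realizes τ σ κ w x y) :
    S.card ≤ ∏ c, if bad w₀ c then (cnt w₀ c) ^ (cnt w₀ c) else 1 := by
  classical
  rcases S.eq_empty_or_nonempty with rfl | ⟨κ₁, hκ₁⟩
  · simp
  obtain ⟨w₁, x₁, y₁, hc₁, hl₁, hb₁, h₁⟩ := hS κ₁ hκ₁
  set Φ : Equiv.Perm (Fin n) → Fin n → ℕ := fun κ i =>
    if bad w₀ (w₁ i).1 then (κ ⟨rk x₁ i, rk_lt x₁ i⟩ : ℕ) -
      (univ.filter fun l => τ (w₁ l).1 < τ (w₁ i).1).card else 0 with hΦ
  have hle : ∀ κ ∈ S, ∀ i, (univ.filter fun l => τ (w₁ l).1 < τ (w₁ i).1).card ≤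
        (κ ⟨rk x₁ i, rk_lt x₁ i⟩ : ℕ) ∧ (κ ⟨rk x₁ i, rk_lt x₁ i⟩ : ℕ) <
        (univ.filter fun l => τ (w₁ l).1 < τ (w₁ i).1).card + cnt w₀ (w₁ i).1 := by
    intro κ hκ i
    obtain ⟨w, x, y, hc, hl, hb, h⟩ := hS κ hκ
    obtain ⟨j, hj⟩ := exists_rk h.injx ⟨rk x₁ i, rk_lt x₁ i⟩
    have hcc : ∀ c, cnt w c = cnt w₁ c := fun c => (hc c).trans (hc₁ c).symm
    obtain ⟨hcell, -⟩ := h.cell_eq h₁ hcc hj
    have e1 : (κ ⟨rk x₁ i, rk_lt x₁ i⟩ : ℕ) = rk y j := by
      have : (⟨rk x₁ i, rk_lt x₁ i⟩ : Fin n) = ⟨rk x j, rk_lt x j⟩ := Fin.ext hj.symm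
      rw [this, h.hκ j]
    have e2 := h.rky hτ j
    rw [hcell, card_filter_cell hcc (fun c => τ c < τ (w₁ i).1)] at e2
    have e3 := inn_lt w y j
    rw [hcell, hc] at e3
    constructor <;> omega
  have hmaps : ∀ κ ∈ S, Φ κ ∈ Fintype.piFinset (fun i : Fin n =>
      if bad w₀ (w₁ i).1 then range (cnt w₀ (w₁ i).1) else {0}) := by
    intro κ hκ
    rw [Fintype.mem_piFinset]
    intro i
    have := hle κ hκ i
    by_cases hb : bad w₀ (w₁ i).1
    · simp only [hΦ, if_pos hb, mem_range]
      omega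
    · simp only [hΦ, if_neg hb, mem_singleton]
  have hinj : Set.InjOn Φ S := by
    intro κ hκ κ' hκ' hEq
    obtain ⟨w, x, y, hc, hl, hb, h⟩ := hS κ hκ
    obtain ⟨w', x', y', hc', hl', hb', h'⟩ := hS κ' hκ'
    refine pattern_eq hτ hσ h h' (fun c => (hc c).trans (hc' c).symm)
      (fun c => (hl c).trans (hl' c).symm) (fun c => (hb c).trans (hb' c).symm) ?_
    intro i i' hii' hbad
    obtain ⟨j, hj⟩ := exists_rk h₁.injx ⟨rk x i, rk_lt x i⟩
    have hj1 : rk x₁ j = rk x i := hj
    have e0 : (⟨rk x₁ j, rk_lt x₁ j⟩ : Fin n) = ⟨rk x i, rk_lt x i⟩ := Fin.ext hj1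
    have e0' : (⟨rk x₁ j, rk_lt x₁ j⟩ : Fin n) = ⟨rk x' i', rk_lt x' i'⟩ :=
      Fin.ext (hj1.trans hii')
    have e1 : (κ ⟨rk x₁ j, rk_lt x₁ j⟩ : ℕ) = rk y i := by rw [e0, h.hκ i]
    have e2 : (κ' ⟨rk x₁ j, rk_lt x₁ j⟩ : ℕ) = rk y' i' := by rw [e0', h'.hκ i']
    have hcell := (h₁.cell_eq h (fun c => (hc₁ c).trans (hc c).symm) hj1).1
    have hbj : bad w₀ (w₁ j).1 := by
      rw [hcell, ← hb]
      exact hbad
    have h3 := congrFun hEq j
    simp only [hΦ, if_pos hbj] at h3
    have h4 := hle κ hκ j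
    have h5 := hle κ' hκ' j
    rw [← e1, ← e2]
    omega
  calc S.card ≤ (Fintype.piFinset (fun i : Fin n =>
        if bad w₀ (w₁ i).1 then range (cnt w₀ (w₁ i).1) else {0})).card :=
        card_le_card_of_injOn Φ hmaps hinj
    _ = ∏ i : Fin n, (if bad w₀ (w₁ i).1 then cnt w₀ (w₁ i).1 else 1) := by
        rw [Fintype.card_piFinset]
        refine prod_congr rfl fun i _ => ?_
        split_ifs <;> simp
    _ = ∏ c, ∏ i ∈ univ.filter (fun i => (w₁ i).1 = c),
          (if bad w₀ (w₁ i).1 then cnt w₀ (w₁ i).1 else 1) :=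
        (prod_fiberwise univ (fun i => (w₁ i).1) _).symm
    _ = ∏ c, if bad w₀ c then (cnt w₀ c) ^ (cnt w₀ c) else 1 := by
        refine prod_congr rfl fun c _ => ?_
        have h6 : ∏ i ∈ univ.filter (fun i => (w₁ i).1 = c),
            (if bad w₀ (w₁ i).1 then cnt w₀ (w₁ i).1 else 1) =
            ∏ i ∈ univ.filter (fun i => (w₁ i).1 = c), (if bad w₀ c then cnt w₀ c else 1) := by
          refine prod_congr rfl fun i hi => ?_
          simp only [mem_filter, mem_univ, true_and] at hi
          rw [hi]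
        rw [h6, prod_const]
        have h7 : (univ.filter (fun i => (w₁ i).1 = c)).card = cnt w₀ c := hc₁ c
        rw [h7]
        split_ifs
        · rfl
        · simp

end Pool.Agent.Lib.MP_bd876b_pr
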