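import Pool.Agent.Lib.MP_bd876b_pr.LowerCount

/-!
The average cost of the description.
-/

namespace Pool.Agent.Lib.MP_bd876b_pr

open Finset

variable {n N d : ℕ}

lemma sum_cnt (w : Fin n → Fin N × Fin d) : ∑ c, cnt w c = n := by
  have h := card_eq_sum_card_fiberwise (f := fun l => (w l).1) (s := univ) (t := univ)
    (fun l _ => mem_coe.mpr (mem_univ _))
  rw [card_univ, Fintype.card_fin] at h
  exact h.symm

lemma cnt_le (w : Fin n → Fin N × Fin d) (c : Fin N) : cnt w c ≤ n := by
  have := card_le_univ (univ.filter fun l => (w l).1 = c)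
  rwa [Fintype.card_fin] at this

open Classical in
lemma sum_same_col {i j : Fin n} (hij : i ≠ j) :
    ∑ w : Fin n → Fin N × Fin d, (if w i = w j then (4 : ℝ) ^ cnt w (w i).1 else 0) =
      (N * d : ℝ) * (16 * ((N + 3) * d : ℝ) ^ (n - 2)) := by
  set φ : Fin N × Fin d → Fin n → Fin N × Fin d → ℝ := fun v l u =>
    if l = i ∨ l = j then (if u = v then 4 else 0) else (if u.1 = v.1 then 4 else 1) with hφ
  have h1 : ∀ w : Fin n → Fin N × Fin d,
      (if w i = w j then (4 : ℝ) ^ cnt w (w i).1 else 0) = ∑ v, ∏ l, φ v l (w l) := by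
    intro w
    by_cases hw : w i = w j
    · rw [if_pos hw, sum_eq_single (w i)]
      · have h2 : ∀ l, φ (w i) l (w l) = if (w l).1 = (w i).1 then 4 else 1 := by
          intro l
          simp only [hφ]
          split_ifs with h3 h4 h5 h6 h7
          · rfl
          · exact absurd (congrArg Prod.fst h4) h5
          · exfalso
            rcases h3 with rfl | rfl
            · exact h4 rfl
            · exact h4 hw.symm
          · exfalso
            rcases h3 with rfl | rfl
            · exact h4 rfl
            · exact h4 hw.symm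
          · rfl
          · rfl
        rw [prod_congr rfl fun l _ => h2 l, prod_ite, prod_const, prod_const_one, mul_one]
        rfl
      · intro v _ hv
        apply prod_eq_zero (mem_univ i)
        have hv' : ¬ w i = v := fun h => hv h.symm
        simp [hφ, hv']
      · intro h
        exact absurd (mem_univ _) h
    · rw [if_neg hw]
      symm
      apply sum_eq_zero
      intro v _
      by_cases hi : w i = v
      · apply prod_eq_zero (mem_univ j)
        have hv' : ¬ w j = v := fun h => hw (hi.trans h.symm)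
        simp [hφ, hv']
      · apply prod_eq_zero (mem_univ i)
        simp [hφ, hi]
  rw [sum_congr rfl fun w _ => h1 w, sum_comm]
  have h2 : ∀ v, ∑ w : Fin n → Fin N × Fin d, ∏ l, φ v l (w l) =
      16 * ((N + 3) * d : ℝ) ^ (n - 2) := by
    intro v
    have h3 : ∑ w : Fin n → Fin N × Fin d, ∏ l, φ v l (w l) = ∏ l, ∑ u, φ v l u := by
      rw [prod_univ_sum, Fintype.piFinset_univ]
    rw [h3, prod_two hij _ ((N + 3) * d : ℝ)]
    · have h4 : ∀ l, l = i ∨ l = j → ∑ u, φ v l u = 4 := by
        intro l hl
        simp only [hφ]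
        rw [sum_congr rfl fun u _ => if_pos hl, sum_ite_eq']
        simp
      rw [h4 i (Or.inl rfl), h4 j (Or.inr rfl)]
      ring
    · intro l h5 h6
      simp only [hφ]
      have h7 : ¬ (l = i ∨ l = j) := by
        push Not
        exact ⟨h5, h6⟩
      rw [sum_congr rfl fun u _ => if_neg h7, sum_ite, sum_const, sum_const, card_col,
        card_not_col]
      have hN : 1 ≤ N := by
        have := v.1.pos
        omega
      simp only [nsmul_eq_mul]
      push_cast [Nat.cast_sub hN]
      ring
  rw [sum_congr rfl fun v _ => h2 v, sum_const, card_univ, Fintype.card_prod, Fintype.card_fin,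
    Fintype.card_fin, nsmul_eq_mul]
  push_cast
  ring

lemma mul_log_le (C : ℕ) : (C : ℝ) * Real.log C ≤ (4 : ℝ) ^ C := by
  have h1 : Real.log C ≤ C := by
    rcases Nat.eq_zero_or_pos C with rfl | h
    · simp
    · have hC : (0 : ℝ) < C := by exact_mod_cast h
      have := Real.log_le_sub_one_of_pos hC
      linarith
  have h2 : (C : ℝ) ≤ 2 ^ C := by
    exact_mod_cast (Nat.lt_two_pow_self (n := C)).le
  have hC0 : (0 : ℝ) ≤ C := Nat.cast_nonneg C
  calc (C : ℝ) * Real.log C ≤ C * C := mul_le_mul_of_nonneg_left h1 hC0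
    _ ≤ 2 ^ C * 2 ^ C := mul_le_mul h2 h2 hC0 (by positivity)
    _ = (4 : ℝ) ^ C := by
        rw [← mul_pow]
        norm_num

open Classical in
lemma sum_bad_le (w : Fin n → Fin N × Fin d) :
    ∑ c, (if bad w c then (cnt w c : ℝ) * Real.log (cnt w c) else 0) ≤
      ∑ i, ∑ j, if i ≠ j ∧ w i = w j then (4 : ℝ) ^ cnt w (w i).1 else 0 := by
  have hnn : ∀ i j : Fin n, (0 : ℝ) ≤ if i ≠ j ∧ w i = w j then (4 : ℝ) ^ cnt w (w i).1 else 0 := by
    intro i j
    split_ifs <;> positivity
  calc ∑ c, (if bad w c then (cnt w c : ℝ) * Real.log (cnt w c) else 0)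
      ≤ ∑ c, ∑ i ∈ univ.filter (fun i => (w i).1 = c), ∑ j,
          (if i ≠ j ∧ w i = w j then (4 : ℝ) ^ cnt w (w i).1 else 0) := by
        refine sum_le_sum fun c _ => ?_
        split_ifs with hb
        · obtain ⟨i, j, hij, hw, hc⟩ := hb
          have h1 : (4 : ℝ) ^ cnt w c ≤ ∑ j,
              (if i ≠ j ∧ w i = w j then (4 : ℝ) ^ cnt w (w i).1 else 0) := by
            have := single_le_sum (f := fun j => if i ≠ j ∧ w i = w j then
              (4 : ℝ) ^ cnt w (w i).1 else 0) (fun j _ => hnn i j) (mem_univ j)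
            simpa only [hij, hw, ne_eq, not_false_eq_true, true_and, if_true, ← hc] using this
          calc (cnt w c : ℝ) * Real.log (cnt w c) ≤ (4 : ℝ) ^ cnt w c := mul_log_le _
            _ ≤ _ := h1
            _ ≤ _ := single_le_sum (f := fun i => ∑ j,
                (if i ≠ j ∧ w i = w j then (4 : ℝ) ^ cnt w (w i).1 else 0))
                (fun i _ => sum_nonneg fun j _ => hnn i j) (by simp [hc])
        · exact sum_nonneg fun i _ => sum_nonneg fun j _ => hnn i j
    _ = ∑ i, ∑ j, if i ≠ j ∧ w i = w j then (4 : ℝ) ^ cnt w (w i).1 else 0 :=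
        sum_fiberwise univ (fun i => (w i).1) _

open Classical in
/-- The average cost caused by bad cells. -/
lemma sum_sum_bad_le (hn : 2 ≤ n) (hN : 1 ≤ N) (hd : 1 ≤ d) :
    ∑ w : Fin n → Fin N × Fin d,
      ∑ c, (if bad w c then (cnt w c : ℝ) * Real.log (cnt w c) else 0) ≤
    (N * d : ℝ) ^ n * (16 * n ^ 2 * Real.exp (3 * n / N) / (N * d)) := by
  have hNd : (0 : ℝ) < N * d := by positivity
  have hN' : (0 : ℝ) < N := by positivity
  calc ∑ w : Fin n → Fin N × Fin d,
        ∑ c, (if bad w c then (cnt w c : ℝ) * Real.log (cnt w c) else 0)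
      ≤ ∑ w : Fin n → Fin N × Fin d, ∑ i, ∑ j,
          (if i ≠ j ∧ w i = w j then (4 : ℝ) ^ cnt w (w i).1 else 0) :=
        sum_le_sum fun w _ => sum_bad_le w
    _ = ∑ i : Fin n, ∑ j : Fin n, ∑ w : Fin n → Fin N × Fin d,
          (if i ≠ j ∧ w i = w j then (4 : ℝ) ^ cnt w (w i).1 else 0) := by
        rw [sum_comm]
        refine sum_congr rfl fun i _ => ?_
        rw [sum_comm]
    _ ≤ ∑ i : Fin n, ∑ j : Fin n, (N * d : ℝ) * (16 * ((N + 3) * d : ℝ) ^ (n - 2)) := by
        refine sum_le_sum fun i _ => sum_le_sum fun j _ => ?_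
        by_cases hij : i = j
        · subst hij
          simp only [ne_eq, not_true_eq_false, false_and, if_false, sum_const_zero]
          positivity
        · simp only [ne_eq, hij, not_false_eq_true, true_and]
          exact (sum_same_col hij).le
    _ = n ^ 2 * ((N * d : ℝ) * (16 * ((N + 3) * d : ℝ) ^ (n - 2))) := by
        simp only [sum_const, card_univ, Fintype.card_fin, nsmul_eq_mul]
        ring
    _ ≤ n ^ 2 * ((N * d : ℝ) * (16 * ((N * d : ℝ) ^ (n - 2) * Real.exp (3 * n / N)))) := by
        have h1 : ((N + 3) * d : ℝ) = (N * d) * (1 + 3 / N) := by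
          field_simp
        have h2 : (1 + 3 / N : ℝ) ≤ Real.exp (3 / N) := by
          have := Real.add_one_le_exp (3 / N : ℝ)
          linarith
        have h3 : (1 + 3 / N : ℝ) ^ (n - 2) ≤ Real.exp (3 * n / N) := by
          calc (1 + 3 / N : ℝ) ^ (n - 2) ≤ Real.exp (3 / N) ^ (n - 2) := by gcongr
            _ = Real.exp ((n - 2 : ℕ) * (3 / N)) := (Real.exp_nat_mul _ _).symm
            _ ≤ Real.exp (3 * n / N) := by
                apply Real.exp_le_exp.mpr
                have h4 : ((n - 2 : ℕ) : ℝ) ≤ n := by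
                  exact_mod_cast Nat.sub_le n 2
                have h5 : (3 * n / N : ℝ) = n * (3 / N) := by ring
                rw [h5]
                exact mul_le_mul_of_nonneg_right h4 (by positivity)
        rw [h1, mul_pow]
        gcongr
    _ = (N * d : ℝ) ^ n * (16 * n ^ 2 * Real.exp (3 * n / N) / (N * d)) := by
        obtain ⟨k, rfl⟩ := Nat.exists_eq_add_of_le hn
        rw [show 2 + k - 2 = k by omega, pow_add]
        field_simp

end Pool.Agent.Lib.MP_bd876b_pr
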