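import Pool.Agent.Lib.MP_bd876b_pr.Prob

/-!
The refined measures converge weakly to the fractal permuton.
-/

namespace Pool.Agent.Lib.MP_bd876b_pr

open Finset MeasureTheory Filter Topology

variable {d : ℕ}

instance : IsProbabilityMeasure unitSquare := by
  constructor
  rw [unitSquare, Measure.restrict_apply_univ, Measure.volume_eq_prod, Measure.prod_prod,
    Real.volume_Icc]
  simp

lemma corner_eq (s : List (Fin d) → Equiv.Perm (Fin d)) (a : ℕ → Fin d) (k : ℕ) :
    corner s k (fun i => a i) = (∑ j ∈ range k, Real.ofDigitsTerm a j,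
      ∑ j ∈ range k, Real.ofDigitsTerm (twist s a) j) := by
  induction k with
  | zero =>
    simp only [corner, range_zero, sum_empty]
    rfl
  | succ k ih =>
    rw [corner]
    simp only [Fin.val_castSucc, Fin.val_last]
    rw [ih, sum_range_succ, sum_range_succ]
    rfl

lemma tendsto_corner (s : List (Fin d) → Equiv.Perm (Fin d)) (a : ℕ → Fin d) :
    Tendsto (fun k => corner s k fun i => a i) atTop
      (𝓝 (Real.ofDigits a, Real.ofDigits (twist s a))) := by
  simp_rw [corner_eq]
  exact Real.summable_ofDigitsTerm.hasSum.tendsto_sum_nat.prodMk_nhds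
    Real.summable_ofDigitsTerm.hasSum.tendsto_sum_nat

lemma tendsto_point (hd : 2 ≤ d) (s : List (Fin d) → Equiv.Perm (Fin d)) (a : ℕ → Fin d)
    (p : ℝ × ℝ) :
    Tendsto (fun k => corner s k (fun i => a i) + ((d : ℝ) ^ k)⁻¹ • p) atTop
      (𝓝 (Real.ofDigits a, Real.ofDigits (twist s a))) := by
  have h1 : Tendsto (fun k : ℕ => ((d : ℝ) ^ k)⁻¹ • p) atTop (𝓝 ((0 : ℝ) • p)) := by
    apply Tendsto.smul_const
    apply tendsto_inv_atTop_zero.comp
    apply tendsto_pow_atTop_atTop_of_one_lt
    exact_mod_cast hd
  rw [zero_smul] at h1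
  simpa using (tendsto_corner s a).add h1

variable [NeZero d]

lemma digitLaw_res (k : ℕ) (u : Fin k → Fin d) :
    digitLaw d {a | (fun i : Fin k => a i) = u} = ((d : ENNReal)⁻¹) ^ k := by
  have h : {a : ℕ → Fin d | (fun i : Fin k => a i) = u} =
      {a | ∀ j ∈ range k, a j = (fun j => if h : j < k then u ⟨j, h⟩ else 0) j} := by
    ext a
    simp only [Set.mem_ofPred_eq, mem_range]
    constructor
    · rintro rfl j hj
      rw [dif_pos hj]
    · intro h
      funext i
      rw [h i i.isLt, dif_pos i.isLt]
  rw [h, digitLaw_pi, card_range]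

omit [NeZero d] in
lemma measurable_res (k : ℕ) : Measurable fun a : ℕ → Fin d => fun i : Fin k => a i :=
  measurable_pi_lambda _ fun _ => measurable_pi_apply _

lemma integral_res (k : ℕ) (G : (Fin k → Fin d) → ℝ) :
    ∫ a, G (fun i => a i) ∂(digitLaw d) = ∑ u, ((d : ℝ)⁻¹ ^ k) * G u := by
  have h1 : ∫ a, G (fun i => a i) ∂(digitLaw d) =
      ∫ u, G u ∂((digitLaw d).map fun a => fun i : Fin k => a i) := by
    rw [integral_map (measurable_res k).aemeasurable
      (measurable_of_countable G).aestronglyMeasurable]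
  have h2 : IsProbabilityMeasure ((digitLaw d).map fun a => fun i : Fin k => a i) :=
    Measure.isProbabilityMeasure_map (measurable_res k).aemeasurable
  rw [h1, integral_fintype (Integrable.of_finite)]
  refine sum_congr rfl fun u _ => ?_
  rw [measureReal_def, Measure.map_apply (measurable_res k) (measurableSet_singleton u)]
  have h3 : (fun a : ℕ → Fin d => fun i : Fin k => a i) ⁻¹' {u} =
    {a | (fun i : Fin k => a i) = u} := rfl
  rw [h3, digitLaw_res, smul_eq_mul]
  congr 1
  simp

lemma integral_refined (s : List (Fin d) → Equiv.Perm (Fin d)) (k : ℕ)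
    (f : BoundedContinuousFunction (ℝ × ℝ) ℝ) :
    ∫ p, f p ∂(refined s k) = ∑ u : Fin k → Fin d, ((d : ℝ)⁻¹ ^ k) *
      ∫ p, f (corner s k u + ((d : ℝ) ^ k)⁻¹ • p) ∂unitSquare := by
  have hm : ∀ u : Fin k → Fin d,
      Measurable fun p : ℝ × ℝ => corner s k u + ((d : ℝ) ^ k)⁻¹ • p := fun u => by fun_prop
  have hp : ∀ u : Fin k → Fin d, IsProbabilityMeasure
      (unitSquare.map fun p : ℝ × ℝ => corner s k u + ((d : ℝ) ^ k)⁻¹ • p) := fun u =>
    Measure.isProbabilityMeasure_map (hm u).aemeasurable
  have hc : ((d : ENNReal)⁻¹ ^ k) ≠ ⊤ := by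
    apply ENNReal.pow_ne_top
    rw [ENNReal.inv_ne_top]
    exact_mod_cast NeZero.ne d
  unfold refined
  rw [integral_finsetSum_measure]
  · refine sum_congr rfl fun u _ => ?_
    rw [integral_smul_measure, integral_map (hm u).aemeasurable
      f.continuous.aestronglyMeasurable, smul_eq_mul]
    congr 1
    simp
  · intro u _
    have := hp u
    exact (f.integrable _).smul_measure hc

omit [NeZero d] in
lemma measurable_twist (s : List (Fin d) → Equiv.Perm (Fin d)) : Measurable (twist s) := by
  refine measurable_pi_lambda _ fun k => ?_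
  exact (measurable_of_countable (fun u : Fin (k + 1) → Fin d =>
    s (List.ofFn fun i : Fin k => u i.castSucc) (u (Fin.last k)))).comp (measurable_res (k + 1))

omit [NeZero d] in
lemma measurable_twisted_point (s : List (Fin d) → Equiv.Perm (Fin d)) :
    Measurable fun a : ℕ → Fin d => (Real.ofDigits a, Real.ofDigits (twist s a)) :=
  Real.continuous_ofDigits.measurable.prodMk
    (Real.continuous_ofDigits.measurable.comp (measurable_twist s))

instance (s : List (Fin d) → Equiv.Perm (Fin d)) : IsProbabilityMeasure (permuton s) :=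
  Measure.isProbabilityMeasure_map (measurable_twisted_point s).aemeasurable

/-- The refined measures converge weakly to the fractal permuton. -/
theorem tendsto_refined (hd : 2 ≤ d) (s : List (Fin d) → Equiv.Perm (Fin d))
    (f : BoundedContinuousFunction (ℝ × ℝ) ℝ) :
    Tendsto (fun k => ∫ p, f p ∂(refined s k)) atTop (𝓝 (∫ p, f p ∂(permuton s))) := by
  have h1 : ∫ p, f p ∂(permuton s) =
      ∫ a, f (Real.ofDigits a, Real.ofDigits (twist s a)) ∂(digitLaw d) := by
    rw [permuton, integral_map (measurable_twisted_point s).aemeasurable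
      f.continuous.aestronglyMeasurable]
  have h2 : ∀ k, ∫ p, f p ∂(refined s k) = ∫ a, (∫ p, f (corner s k (fun i => a i) +
      ((d : ℝ) ^ k)⁻¹ • p) ∂unitSquare) ∂(digitLaw d) := by
    intro k
    rw [integral_refined, integral_res k fun u =>
      ∫ p, f (corner s k u + ((d : ℝ) ^ k)⁻¹ • p) ∂unitSquare]
  rw [h1]
  simp_rw [h2]
  have h3 : ∀ a : ℕ → Fin d, Tendsto (fun k => ∫ p, f (corner s k (fun i => a i) +
      ((d : ℝ) ^ k)⁻¹ • p) ∂unitSquare) atTop
      (𝓝 (f (Real.ofDigits a, Real.ofDigits (twist s a)))) := by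
    intro a
    have h4 : f (Real.ofDigits a, Real.ofDigits (twist s a)) =
        ∫ _p, f (Real.ofDigits a, Real.ofDigits (twist s a)) ∂unitSquare := by
      rw [integral_const, probReal_univ, one_smul]
    rw [h4]
    refine tendsto_integral_of_dominated_convergence (fun _ => ‖f‖) (fun k => ?_)
      (integrable_const _) (fun k => Eventually.of_forall fun p => f.norm_coe_le_norm _)
      (Eventually.of_forall fun p => ?_)
    · exact (f.continuous.comp (by fun_prop)).aestronglyMeasurable
    · exact (f.continuous.tendsto _).comp (tendsto_point hd s a p)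
  refine tendsto_integral_of_dominated_convergence (fun _ => ‖f‖) (fun k => ?_)
    (integrable_const _) (fun k => Eventually.of_forall fun a => ?_)
    (Eventually.of_forall h3)
  · exact ((measurable_of_countable (fun u : Fin k → Fin d =>
      ∫ p, f (corner s k u + ((d : ℝ) ^ k)⁻¹ • p) ∂unitSquare)).comp
      (measurable_res k)).aestronglyMeasurable
  · refine (norm_integral_le_of_norm_le_const
      (Eventually.of_forall fun p => f.norm_coe_le_norm _)).trans (le_of_eq ?_)
    rw [probReal_univ, mul_one]

theorem isFractalPermuton (hd : 2 ≤ d) (s : List (Fin d) → Equiv.Perm (Fin d)) :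
    IsFractalPermuton s (permuton s) :=
  ⟨inferInstance, tendsto_refined hd s⟩

theorem IsFractalPermuton.eq_permuton (hd : 2 ≤ d) {s : List (Fin d) → Equiv.Perm (Fin d)}
    {μ : Measure (ℝ × ℝ)} (h : IsFractalPermuton s μ) : μ = permuton s := by
  have := h.prob
  refine ext_of_forall_integral_eq_of_IsFiniteMeasure fun f => ?_
  exact tendsto_nhds_unique (h.lim f) (tendsto_refined hd s f)

end Pool.Agent.Lib.MP_bd876b_pr
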